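import Pool.Agent.Work.MP_a98e4e_ag.Cx.HomDepth

/-!
# The key homotopy of degree one (note 5959, section 6)

`key`: `Dh (ξ ⊗ ·) + iP τ` is null-homotopic.  It is locally the boundary of
`u i = Dh (κ i ⊗ ·) - [y i, ·] + k i` and the `u i` agree on the cohomology.
-/

set_option autoImplicit false
set_option linter.unusedSectionVars false

open Matrix Kronecker RingTheory.Sequence

namespace LicciCx

namespace Cx

universe u

variable {R : Type u} [CommRing R]

/-! ## insertion of a vector -/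

section ins

variable {J J' : Type*} [Fintype J] [Fintype J'] [DecidableEq J] [DecidableEq J'] {Y : Cx R J}
  {X : Cx R J'} {n m : ℤ}

/-- `x ↦ v ⊗ x` -/
def ins (J' : Type*) [DecidableEq J'] (v : J → R) : Matrix (J × J') J' R :=
  fun x j => if x.2 = j then v x.1 else 0

theorem ins_mulVec (v : J → R) (x : J' → R) : ins J' v *ᵥ x = tv v x := by
  ext ⟨i, j⟩
  simp [ins, tv, Matrix.mulVec, dotProduct]

theorem ins_add (v w : J → R) : ins J' (v + w) = ins J' v + ins J' w := by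
  ext ⟨i, k⟩ j
  by_cases h : k = j <;> simp [ins, h]

theorem ins_sub (v w : J → R) : ins J' (v - w) = ins J' v - ins J' w := by
  ext ⟨i, k⟩ j
  by_cases h : k = j <;> simp [ins, h]

theorem ins_smul (c : R) (v : J → R) : ins J' (c • v) = c • ins J' v := by
  ext ⟨i, k⟩ j
  by_cases h : k = j <;> simp [ins, h]

theorem ins_hmg {v : J → R} (hv : Vh Y n v) : IsHmg X (Y.tensor X) n (ins J' v) := by
  rintro ⟨i, k⟩ j h
  show (if k = j then v i else 0) = 0
  by_cases hk : k = j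
  · subst hk
    rw [if_pos rfl]
    exact hv i (by intro h1; apply h; rw [tensor_deg, h1]; ring)
  · rw [if_neg hk]

theorem tensor_d_ins {v : J → R} (hv : Vh Y n v) :
    (Y.tensor X).d * ins J' v = ins J' (Y.d *ᵥ v) + ((sg n : ℤ) : R) • (ins J' v * X.d) := by
  ext ⟨i, k⟩ j
  rw [tensor_d, Matrix.add_mul, Matrix.add_apply, Matrix.add_apply, Matrix.smul_apply]
  congr 1
  · rw [Matrix.mul_apply, Fintype.sum_prod_type]
    simp only [Matrix.kroneckerMap_apply, ins]
    have : ∀ x : J, ∑ y : J', Y.d i x * (1 : Matrix J' J' R) k y * (if y = j then v x else 0) =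
        (if k = j then Y.d i x * v x else 0) := by
      intro x
      rw [Finset.sum_eq_single j]
      · by_cases h : k = j
        · subst h; simp
        · simp [h, Matrix.one_apply_ne h]
      · intro y _ hy; simp [hy]
      · simp
    rw [Finset.sum_congr rfl fun x _ => this x]
    by_cases h : k = j
    · simp [h, Matrix.mulVec, dotProduct]
    · simp [h]
  · rw [Matrix.mul_apply, Fintype.sum_prod_type, Matrix.mul_apply]
    simp only [Matrix.kroneckerMap_apply, ins, ep, Matrix.diagonal_apply]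
    have h1 : ∀ x : J, ∑ y : J', (if i = x then ((sg (Y.deg i) : ℤ) : R) else 0) * X.d k y *
        (if y = j then v x else 0) = (if i = x then ((sg (Y.deg i) : ℤ) : R) * X.d k j * v x else 0) := by
      intro x
      rw [Finset.sum_eq_single j]
      · by_cases h : i = x <;> simp [h]
      · intro y _ hy; simp [hy]
      · simp
    rw [Finset.sum_congr rfl fun x _ => h1 x, Finset.sum_ite_eq, if_pos (Finset.mem_univ _)]
    have h2 : ∑ y : J', (if k = y then v i else 0) * X.d y j = v i * X.d k j := by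
      rw [Finset.sum_eq_single k]
      · simp
      · intro y _ hy; simp [hy.symm]
      · simp
    rw [h2, smul_eq_mul]
    by_cases h : Y.deg i = n
    · rw [h]; ring
    · rw [hv i h]; ring

end ins

/-! ## the key homotopy -/

section key

variable {JW JY JX J₂ J₁ JG : Type*} [Fintype JW] [Fintype JY] [Fintype JX] [Fintype J₂]
  [Fintype J₁] [Fintype JG] [DecidableEq JW] [DecidableEq JY] [DecidableEq JX] [DecidableEq J₂]
  [DecidableEq J₁] [DecidableEq JG]

/-- parts of products, rectangular form -/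
theorem part_mulVec' {A B : Type*} [Fintype A] {p : A → ℤ} {p' : B → ℤ} {n : ℤ}
    {f : Matrix B A R} (hf : Hmg p' p n f) (m : ℤ) (v : A → R) :
    Pool.Agent.Licci.part p' (m + n) (f *ᵥ v) = f *ᵥ Pool.Agent.Licci.part p m v := by
  funext i
  by_cases h : p' i = m + n
  · simp only [Pool.Agent.Licci.part, h, if_true, Matrix.mulVec, dotProduct]
    refine Finset.sum_congr rfl fun j _ => ?_
    by_cases h' : p j = m
    · rw [if_pos h']
    · rw [if_neg h', mul_zero, hf i j (by omega), zero_mul]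
  · simp only [Pool.Agent.Licci.part, h, if_false, Matrix.mulVec, dotProduct]
    symm
    refine Finset.sum_eq_zero fun j _ => ?_
    by_cases h' : p j = m
    · rw [hf i j (by omega), zero_mul]
    · rw [if_neg h', mul_zero]

/-- The key homotopy.  `X₂ = X''`, `X₁ = X'`, `W = R ^ JW` in degree `0`, `al : X₂ → W`,
`A : W → X₁`, `iW : W → G`, `iP : X₁ → G` (degree `1`), `Dh : Y ⊗ X → G`, `ad y = [y, ·]`,
`kp y` of degree `0` with `d (kp y) = lam y • ξ`. -/
theorem key [IsDomain R] {l : ℕ} (a : Fin l → R) (ha : IsWeaklyRegular R (List.ofFn a)) (hl : 5 ≤ l)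
    (Y : Cx R JY) (X : Cx R JX) (X₂ : Cx R J₂) (X₁ : Cx R J₁) (G : Cx R JG)
    (hX₂ : ∀ j, X₂.deg j ≤ 1) (hX₁ : ∀ j, -1 ≤ X₁.deg j) (hG : ∀ j, -2 ≤ G.deg j)
    (uX₂ : ∀ i, UE X₂ (a i)) (uX₁ : ∀ i, UE X₁ (a i)) (uG : ∀ i, UE G (a i))
    (al : Matrix JW J₂ R) (hal : Cl X₂ (free R JW 0) 0 al)
    (A : Matrix J₁ JW R) (hA : Cl (free R JW 0) X₁ 0 A)
    (pr₂ : Matrix JX J₂ R) (hpr : Cl X₂ X 0 pr₂)
    (τ : Matrix J₁ J₂ R) (hτ : Cl X₂ X₁ 0 τ)
    (iW : Matrix JG JW R) (hiW : IsHmg (free R JW 0) G 0 iW)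
    (iP : Matrix JG J₁ R) (hiP : Cl X₁ G 1 iP) (hWA : G.d * iW = iP * A)
    (hinj : ∀ v, iP *ᵥ v = 0 → v = 0)
    (hX₁d : ∀ v, Vh X₁ (-1) v → X₁.d *ᵥ v = 0 → v = 0)
    (Dh : Matrix JG (JY × JX) R) (hDh : Cl (Y.tensor X) G 0 Dh)
    (ad : (JW → R) →ₗ[R] Matrix JW JW R) (lam : (JW → R) →ₗ[R] R)
    (kp : (JW → R) →ₗ[R] (JY → R)) (hkp : ∀ y, Vh Y 0 (kp y))
    (ξ : JY → R) (hdk : ∀ y, Y.d *ᵥ kp y = lam y • ξ)
    (hlam : ∀ i, ∃ (N : ℕ) (y : JW → R), lam y = a i ^ N)
    (hC : ∀ y x, Vh X₂ 0 x → X₂.d *ᵥ x = 0 → ∃ s : R, s ≠ 0 ∧ ∃ e,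
      s • (A *ᵥ (ad y *ᵥ (al *ᵥ x)) + lam y • (τ *ᵥ x)) = X₁.d *ᵥ e)
    (hD : ∀ y x, lam y = 0 → Vh X₂ 0 x → X₂.d *ᵥ x = 0 → ∃ s : R, s ≠ 0 ∧ ∃ e g,
      s • (Dh *ᵥ tv (kp y) (pr₂ *ᵥ x)) =
        s • (iW *ᵥ (ad y *ᵥ (al *ᵥ x))) + iP *ᵥ e + G.d *ᵥ g) :
    Bd X₂ G 1 (Dh * ins JX ξ * pr₂ + iP * τ) := by
  choose N y hy using hlam
  -- the local homotopies `k i`
  have hk : ∀ i, ∃ k : Matrix J₁ J₂ R, IsHmg X₂ X₁ (-1) k ∧
      A * ad (y i) * al + a i ^ N i • τ = -(X₁.d * k + k * X₂.d) := by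
    intro i
    have hcl : Cl X₂ X₁ 0 (A * ad (y i) * al + a i ^ N i • τ) := by
      refine Cl.add ?_ (hτ.smul _)
      have h1 : Cl (free R JW 0) (free R JW 0) 0 (ad (y i)) := by
        refine Cl.mk0 ?_ (by simp)
        intro i j h
        exact absurd (by simp) h
      exact ((hA.mul h1).mul hal).cast (by norm_num)
    have h1 := Bd.of_cycles a ha uX₂ uX₁ 2 (by
      intro j j'
      have := hX₂ j'
      have := hX₁ j
      push_cast
      omega) (by omega) hcl (by
        intro v hv hdv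
        obtain ⟨s, hs, e, he⟩ := hC (y i) v hv hdv
        refine ⟨s, hs, e, ?_⟩
        rw [← he, Matrix.add_mulVec, Matrix.smul_mulVec, ← Matrix.mulVec_mulVec,
          ← Matrix.mulVec_mulVec, hy i])
    obtain ⟨k, hk1, hk2⟩ := h1
    refine ⟨-k, (hk1.cast (by norm_num)).neg, ?_⟩
    rw [hk2, sg_zero, Int.cast_one, one_smul, Matrix.mul_neg, Matrix.neg_mul]
    abel
  choose k hk1 hk2 using hk
  have halX : al * X₂.d = 0 := by
    have := hal.comm0
    rw [free_d, Matrix.zero_mul] at this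
    exact this.symm
  have hpP : G.d * iP = -(iP * X₁.d) := hiP.comm1
  -- the map `u`
  have hadh : ∀ z, IsHmg X₂ G 0 (iW * ad z * al) := by
    intro z
    have h1 : IsHmg (free R JW 0) (free R JW 0) 0 (ad z) := by
      intro i j h
      exact absurd (by simp) h
    have h2 := Hmg.mul (Hmg.mul hiW h1) hal.hmg
    exact h2.cast (by norm_num)
  have hDz : ∀ z, IsHmg X₂ G 0 (Dh * ins JX (kp z) * pr₂) := by
    intro z
    have h1 : IsHmg X (Y.tensor X) 0 (ins JX (kp z)) := ins_hmg (hkp z)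
    have h2 := Hmg.mul (Hmg.mul hDh.hmg h1) hpr.hmg
    exact h2.cast (by norm_num)
  have hδD : ∀ z, G.d * (Dh * ins JX (kp z) * pr₂) - (Dh * ins JX (kp z) * pr₂) * X₂.d =
      lam z • (Dh * ins JX ξ * pr₂) := by
    intro z
    have h1 := tensor_d_ins (X := X) (hkp z)
    rw [sg_zero, Int.cast_one, one_smul, hdk z, ins_smul] at h1
    have h2 : G.d * (Dh * ins JX (kp z) * pr₂) = Dh * ((Y.tensor X).d * ins JX (kp z)) * pr₂ := by
      rw [← Matrix.mul_assoc, ← Matrix.mul_assoc, hDh.comm0, Matrix.mul_assoc Dh]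
    rw [h2, h1, Matrix.mul_add, Matrix.add_mul, Matrix.mul_smul, Matrix.smul_mul,
      Matrix.mul_assoc _ pr₂ X₂.d, ← hpr.comm0]
    simp only [Matrix.mul_assoc]
    abel
  refine Bd.one_of_local a ha uX₂ uG 3 (by
      intro j j'
      have := hX₂ j'
      have := hG j
      push_cast
      omega) (by omega) N
    (fun i => Dh * ins JX (kp (y i)) * pr₂ - iW * ad (y i) * al + iP * k i) _ ?_ ?_ ?_
  · intro i
    exact ((hDz (y i)).sub (hadh (y i))).add (hiP.hmg.mul' (hk1 i) (by norm_num))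
  · intro i
    have e1 := hδD (y i)
    have e2 : G.d * (iW * ad (y i) * al) = iP * (A * ad (y i) * al) := by
      rw [← Matrix.mul_assoc, ← Matrix.mul_assoc, hWA]
      simp only [Matrix.mul_assoc]
    have e3 : G.d * (iP * k i) = -(iP * (X₁.d * k i)) := by
      rw [← Matrix.mul_assoc, hpP, Matrix.neg_mul, Matrix.mul_assoc]
    have e4 : (iW * ad (y i) * al) * X₂.d = 0 := by
      rw [Matrix.mul_assoc, halX, Matrix.mul_zero]
    have e5 : A * ad (y i) * al = -(X₁.d * k i + k i * X₂.d) - a i ^ N i • τ := by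
      rw [← hk2 i]; abel
    rw [Matrix.mul_add, Matrix.mul_sub, Matrix.add_mul, Matrix.sub_mul, e2, e3, e4, e5]
    have e6 : G.d * (Dh * ins JX (kp (y i)) * pr₂) =
        (Dh * ins JX (kp (y i)) * pr₂) * X₂.d + lam (y i) • (Dh * ins JX ξ * pr₂) := by
      rw [← e1]; abel
    rw [e6, hy i, smul_add, Matrix.mul_sub, Matrix.mul_neg, Matrix.mul_add, Matrix.mul_smul,
      Matrix.mul_assoc iP (k i) X₂.d]
    abel
  · intro i j
    set z : JW → R := a j ^ N j • y i - a i ^ N i • y j with hz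
    have hlz : lam z = 0 := by
      rw [hz, map_sub, map_smul, map_smul, hy, hy, smul_eq_mul, smul_eq_mul]; ring
    set q : Matrix J₁ J₂ R := a j ^ N j • k i - a i ^ N i • k j with hq
    have hfz : a j ^ N j • (Dh * ins JX (kp (y i)) * pr₂ - iW * ad (y i) * al + iP * k i) -
        a i ^ N i • (Dh * ins JX (kp (y j)) * pr₂ - iW * ad (y j) * al + iP * k j) =
        Dh * ins JX (kp z) * pr₂ - iW * ad z * al + iP * q := by
      rw [hz, hq]
      simp only [map_sub, map_smul, ins_sub, ins_smul, Matrix.mul_sub, Matrix.sub_mul,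
        Matrix.mul_smul, Matrix.smul_mul, smul_sub, smul_add]
      abel
    have hqz : A * ad z * al = -(X₁.d * q + q * X₂.d) := by
      have h1 := hk2 i
      have h2 := hk2 j
      have h3 : A * ad z * al = a j ^ N j • (A * ad (y i) * al + a i ^ N i • τ) -
          a i ^ N i • (A * ad (y j) * al + a j ^ N j • τ) := by
        rw [hz]
        simp only [map_sub, map_smul, Matrix.mul_sub, Matrix.sub_mul, Matrix.mul_smul,
          Matrix.smul_mul, smul_add, smul_smul, mul_comm (a i ^ N i)]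
        abel
      rw [h3, h1, h2, hq]
      simp only [Matrix.mul_sub, Matrix.sub_mul, Matrix.mul_smul, Matrix.smul_mul, smul_neg,
        smul_add]
      abel
    have hqh : IsHmg X₂ X₁ (-1) q := by
      rw [hq]; exact ((hk1 i).smul _).sub ((hk1 j).smul _)
    rw [hfz]
    have hcl : Cl X₂ G 0 (Dh * ins JX (kp z) * pr₂ - iW * ad z * al + iP * q) := by
      refine Cl.mk0 (((hDz z).sub (hadh z)).add (hiP.hmg.mul' hqh (by norm_num))) ?_
      have e1 := hδD z
      rw [hlz, zero_smul, sub_eq_zero] at e1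
      have e2 : G.d * (iW * ad z * al) = iP * (A * ad z * al) := by
        rw [← Matrix.mul_assoc, ← Matrix.mul_assoc, hWA]
        simp only [Matrix.mul_assoc]
      have e3 : G.d * (iP * q) = -(iP * (X₁.d * q)) := by
        rw [← Matrix.mul_assoc, hpP, Matrix.neg_mul, Matrix.mul_assoc]
      have e4 : (iW * ad z * al) * X₂.d = 0 := by
        rw [Matrix.mul_assoc, halX, Matrix.mul_zero]
      rw [Matrix.mul_add, Matrix.mul_sub, Matrix.add_mul, Matrix.sub_mul, e1, e2, e3, e4, hqz,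
        Matrix.mul_neg, Matrix.mul_add, Matrix.mul_assoc iP q X₂.d]
      abel
    refine Bd.of_cycles a ha uX₂ uG 3 (by
      intro j j'
      have := hX₂ j'
      have := hG j
      push_cast
      omega) (by omega) hcl ?_
    intro v hv hdv
    obtain ⟨s, hs, e, g, hg⟩ := hD z v hlz hv hdv
    refine ⟨s, hs, Pool.Agent.Licci.part G.deg (-1) g, ?_⟩
    -- the value
    have e1 : (Dh * ins JX (kp z) * pr₂) *ᵥ v = Dh *ᵥ tv (kp z) (pr₂ *ᵥ v) := by
      rw [← Matrix.mulVec_mulVec, ← Matrix.mulVec_mulVec, ins_mulVec]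
    have e2 : (iW * ad z * al) *ᵥ v = iW *ᵥ (ad z *ᵥ (al *ᵥ v)) := by
      rw [← Matrix.mulVec_mulVec, ← Matrix.mulVec_mulVec]
    have e3 : s • ((Dh * ins JX (kp z) * pr₂ - iW * ad z * al + iP * q) *ᵥ v) =
        iP *ᵥ (e + s • (q *ᵥ v)) + G.d *ᵥ g := by
      rw [Matrix.add_mulVec, Matrix.sub_mulVec, e1, e2, smul_add, smul_sub, hg,
        Matrix.mulVec_add, Matrix.mulVec_smul, ← Matrix.mulVec_mulVec v iP q]
      abel
    -- homogeneous parts
    have hL : Vh G 0 (s • ((Dh * ins JX (kp z) * pr₂ - iW * ad z * al + iP * q) *ᵥ v)) := by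
      have h1 := Vh.mulVec hcl.hmg hv
      intro i hi
      rw [Pi.smul_apply, h1 i hi, smul_zero]
    set e' : J₁ → R := Pool.Agent.Licci.part X₁.deg (-1) (e + s • (q *ᵥ v)) with he'
    set g' : JG → R := Pool.Agent.Licci.part G.deg (-1) g with hg'
    have e4 : s • ((Dh * ins JX (kp z) * pr₂ - iW * ad z * al + iP * q) *ᵥ v) =
        iP *ᵥ e' + G.d *ᵥ g' := by
      have h1 := congrArg (Pool.Agent.Licci.part G.deg 0) e3
      rw [Pool.Agent.Licci.part_eq (vh_iff_supp.1 hL)] at h1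
      rw [h1, he', hg', ← part_mulVec' hiP.hmg, ← part_mulVec' G.hmg]
      funext i
      by_cases hi : G.deg i = 0 <;> simp [Pool.Agent.Licci.part, hi]
    have hve' : Vh X₁ (-1) e' := by
      intro i hi
      rw [he', Pool.Agent.Licci.part, if_neg hi]
    have e5 : X₁.d *ᵥ e' = 0 := by
      apply hinj
      have h1 : G.d *ᵥ (s • ((Dh * ins JX (kp z) * pr₂ - iW * ad z * al + iP * q) *ᵥ v)) = 0 := by
        rw [Matrix.mulVec_smul, Matrix.mulVec_mulVec, hcl.comm0, ← Matrix.mulVec_mulVec, hdv,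
          Matrix.mulVec_zero, smul_zero]
      rw [e4, Matrix.mulVec_add, Matrix.mulVec_mulVec, Matrix.mulVec_mulVec, G.sq,
        Matrix.zero_mulVec, add_zero, hpP, Matrix.neg_mulVec, neg_eq_zero,
        ← Matrix.mulVec_mulVec] at h1
      exact h1
    have e6 := hX₁d e' hve' e5
    rw [e4, e6, Matrix.mulVec_zero, zero_add]

end key

end Cx

end LicciCx
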