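import Pool.Agent.Work.MP_a98e4e_ag.X.Cliff

/-!
# The last step of the case of grade six and eight generators

`C` has dimension `12`, `B` has dimension `80` and a nondegenerate form `ω`,
`R : C → C* → End B` is the `C ⊗ B` block of the projector of the closed fibre.
-/

namespace LicciX

open Module

universe u v w

variable {k : Type u} [Field k] {C : Type w} [AddCommGroup C] [Module k C]
  {B : Type v} [AddCommGroup B] [Module k B]

/-- `D_c : B → Hom(C*, B)`. -/
def Dmap (R : C →ₗ[k] Dual k C →ₗ[k] End k B) (c : C) : B →ₗ[k] (Dual k C →ₗ[k] B) :=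
  (R c).flip

theorem Dmap_apply (R : C →ₗ[k] Dual k C →ₗ[k] End k B) (c : C) (x : B) (φ : Dual k C) :
    Dmap R c x φ = R c φ x := rfl

/-- The projector `P₁` on `Hom(C*, B) = C ⊗ B`. -/
noncomputable def P1 {ι : Type*} [Fintype ι] (b : Basis ι k C)
    (R : C →ₗ[k] Dual k C →ₗ[k] End k B) : End k (Dual k C →ₗ[k] B) :=
  ∑ i, (Dmap R (b i)) ∘ₗ (LinearMap.applyₗ (b.coord i))

theorem P1_apply {ι : Type*} [Fintype ι] (b : Basis ι k C)
    (R : C →ₗ[k] Dual k C →ₗ[k] End k B) (T : Dual k C →ₗ[k] B) :
    P1 b R T = ∑ i, Dmap R (b i) (T (b.coord i)) := by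
  simp [P1, LinearMap.sum_apply]

theorem P1_Dmap {ι : Type*} [Fintype ι] (b : Basis ι k C)
    (R : C →ₗ[k] Dual k C →ₗ[k] End k B)
    (h2 : ∀ c ψ x, ∑ i, R (b i) ψ (R c (b.coord i) x) = R c ψ x) (c : C) (x : B) :
    P1 b R (Dmap R c x) = Dmap R c x := by
  ext φ
  rw [P1_apply, LinearMap.sum_apply]
  simp only [Dmap_apply]
  exact h2 c φ x

theorem P1_idem {ι : Type*} [Fintype ι] (b : Basis ι k C)
    (R : C →ₗ[k] Dual k C →ₗ[k] End k B)
    (h2 : ∀ c ψ x, ∑ i, R (b i) ψ (R c (b.coord i) x) = R c ψ x) (T : Dual k C →ₗ[k] B) :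
    P1 b R (P1 b R T) = P1 b R T := by
  rw [P1_apply b R T, map_sum]
  exact Finset.sum_congr rfl fun i _ => P1_Dmap b R h2 _ _

/-- The trace of an endomorphism whose symmetrisation with respect to `ω` is a scalar. -/
theorem trace_of_form [FiniteDimensional k B] [CharZero k] (ω : LinearMap.BilinForm k B)
    (hω : ω.Nondegenerate) (T : End k B) (s : k)
    (h : ∀ x y, ω (T x) y + ω x (T y) = s * ω x y) :
    2 * LinearMap.trace k B T = s * finrank k B := by
  let W : B ≃ₗ[k] Dual k B := ω.toDual hω
  have hW : ∀ x y, W x y = ω x y := fun x y => rfl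
  have e1 : W.conj T + Dual.transpose (R := k) T = s • (1 : End k (Dual k B)) := by
    ext f y
    obtain ⟨x, rfl⟩ := W.surjective f
    simp only [LinearMap.add_apply, LinearEquiv.conj_apply_apply, LinearEquiv.symm_apply_apply,
      Dual.transpose_apply, LinearMap.comp_apply, hW, LinearMap.smul_apply, Module.End.one_apply,
      smul_eq_mul]
    exact h x y
  have e2 := congrArg (LinearMap.trace k (Dual k B)) e1
  rw [map_add, LinearMap.trace_conj', LinearMap.trace_transpose', map_smul,
    LinearMap.trace_one, Subspace.dual_finrank_eq, smul_eq_mul] at e2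
  rw [two_mul]
  exact e2

theorem trace_P1 [FiniteDimensional k B] [FiniteDimensional k C] [CharZero k] {ι : Type*}
    [Fintype ι] (b : Basis ι k C)
    (R : C →ₗ[k] Dual k C →ₗ[k] End k B) (ω : LinearMap.BilinForm k B) (hω : ω.Nondegenerate)
    (h1 : ∀ c φ x y, ω (R c φ x) y + ω x (R c φ y) = (1 / 6 : k) * φ c * ω x y) :
    LinearMap.trace k _ (P1 b R) = (1 / 12 : k) * finrank k C * finrank k B := by
  classical
  have hi : ∀ i, LinearMap.trace k _ ((Dmap R (b i)) ∘ₗ
      (LinearMap.applyₗ (b.coord i) : (Dual k C →ₗ[k] B) →ₗ[k] B)) =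
        (1 / 12 : k) * finrank k B := by
    intro i
    rw [LinearMap.trace_comp_comm']
    have : (LinearMap.applyₗ (b.coord i) : (Dual k C →ₗ[k] B) →ₗ[k] B) ∘ₗ (Dmap R (b i)) =
        R (b i) (b.coord i) := by
      ext x
      rfl
    rw [this]
    have h := trace_of_form ω hω (R (b i) (b.coord i)) (1 / 6) (by
      intro x y
      rw [h1]
      simp)
    linear_combination (1 / 2 : k) * h
  rw [P1, map_sum, Finset.sum_congr rfl fun i _ => hi i, Finset.sum_const, Finset.card_univ,
    ← Module.finrank_eq_card_basis b, nsmul_eq_mul]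
  ring

theorem factor [FiniteDimensional k B] [FiniteDimensional k C] [CharZero k] {ι : Type*}
    [Fintype ι] (b : Basis ι k C)
    (R : C →ₗ[k] Dual k C →ₗ[k] End k B) (ω : LinearMap.BilinForm k B) (hω : ω.Nondegenerate)
    (h1 : ∀ c φ x y, ω (R c φ x) y + ω x (R c φ y) = (1 / 6 : k) * φ c * ω x y)
    (h2 : ∀ c ψ x, ∑ i, R (b i) ψ (R c (b.coord i) x) = R c ψ x)
    (hC : finrank k C = 12) (ξ : C) (φ₀ : Dual k C) (h4 : R ξ φ₀ = 1) (v : C) (φ : Dual k C)
    (x : B) : R v φ x = R ξ φ (R v φ₀ x) := by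
  have hproj : LinearMap.IsProj (LinearMap.range (P1 b R)) (P1 b R) :=
    ⟨fun T => ⟨T, rfl⟩, by rintro _ ⟨T, rfl⟩; exact P1_idem b R h2 T⟩
  have htr := hproj.trace
  rw [trace_P1 b R ω hω h1, hC] at htr
  have hrk : finrank k B = finrank k (LinearMap.range (P1 b R)) := by
    have : (finrank k B : k) = (finrank k (LinearMap.range (P1 b R)) : k) := by
      rw [← htr]
      push_cast
      ring
    exact_mod_cast this
  have hinj : Function.Injective (Dmap R ξ) := by
    intro x y hxy
    have := congrArg (fun T : Dual k C →ₗ[k] B => T φ₀) hxy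
    simpa [Dmap_apply, h4] using this
  have hle : LinearMap.range (Dmap R ξ) ≤ LinearMap.range (P1 b R) := by
    rintro _ ⟨x, rfl⟩
    exact ⟨_, P1_Dmap b R h2 ξ x⟩
  have heq := Submodule.eq_of_le_of_finrank_eq hle
    (by rw [LinearMap.finrank_range_of_inj hinj, hrk])
  have hmem : Dmap R v x ∈ LinearMap.range (Dmap R ξ) := by
    rw [heq]
    exact ⟨_, P1_Dmap b R h2 v x⟩
  obtain ⟨y, hy⟩ := hmem
  have hy0 : y = R v φ₀ x := by
    have := congrArg (fun T : Dual k C →ₗ[k] B => T φ₀) hy
    simpa [Dmap_apply, h4] using this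
  have := congrArg (fun T : Dual k C →ₗ[k] B => T φ) hy
  simp only [Dmap_apply] at this
  rw [← this, hy0]

theorem expand_mul (a c : k) (X Y : End k B) :
    (a • (1 : End k B) - X) * (c • (1 : End k B) - Y) = (a * c) • 1 - a • Y - c • X + X * Y := by
  simp only [sub_mul, mul_sub, smul_mul_assoc, one_mul, mul_smul_comm, mul_one, smul_sub,
    smul_smul]
  rw [mul_comm c a]
  abel

theorem form_ext {ω : LinearMap.BilinForm k B} (hω : ω.Nondegenerate) {S T : End k B}
    (h : ∀ x y, ω x (S y) = ω x (T y)) : S = T := by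
  ext y
  have : ∀ x, ω x (S y - T y) = 0 := fun x => by rw [map_sub, h, sub_self]
  exact sub_eq_zero.1 (hω.2 _ this)

/-- The case `b = 12` is impossible. -/
theorem cf_end [FiniteDimensional k B] [FiniteDimensional k C] [CharZero k] [IsAlgClosed k]
    (ω : LinearMap.BilinForm k B) (hω : ω.Nondegenerate)
    (R : C →ₗ[k] Dual k C →ₗ[k] End k B)
    (h1 : ∀ c φ x y, ω (R c φ x) y + ω x (R c φ y) = (1 / 6 : k) * φ c * ω x y)
    {ι : Type*} [Fintype ι] (b : Basis ι k C)
    (h2 : ∀ c ψ x, ∑ i, R (b i) ψ (R c (b.coord i) x) = R c ψ x)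
    (hC : finrank k C = 12) (hB : finrank k B = 80)
    (Ω : Set C) (hΩ : ∀ ℓ₁ ℓ₂ : Dual k C, ℓ₁ ≠ 0 → ℓ₂ ≠ 0 → ∃ ξ ∈ Ω, ℓ₁ ξ ≠ 0 ∧ ℓ₂ ξ ≠ 0)
    (h4 : ∀ ξ ∈ Ω, ∃ φ, R ξ φ = 1) : False := by
  have hBnt : Nontrivial B := Module.nontrivial_of_finrank_pos (R := k) (by omega)
  have hCnt : Nontrivial C := Module.nontrivial_of_finrank_pos (R := k) (by omega)
  -- a nonzero functional
  obtain ⟨c0, hc0⟩ := exists_ne (0 : C)
  obtain ⟨ℓ0, hℓ0⟩ : ∃ ℓ : Dual k C, ℓ ≠ 0 := by
    by_contra hcon
    push Not at hcon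
    exact hc0 ((Module.forall_dual_apply_eq_zero_iff k c0).1 fun φ => by rw [hcon φ]; rfl)
  obtain ⟨ξ, hξ, -, -⟩ := hΩ ℓ0 ℓ0 hℓ0 hℓ0
  obtain ⟨φ₀, hφ₀⟩ := h4 ξ hξ
  have hform : ∃ x y, ω x y ≠ 0 := by
    obtain ⟨x, hx⟩ := exists_ne (0 : B)
    by_contra hcon
    push Not at hcon
    exact hx (hω.1 x fun y => hcon x y)
  obtain ⟨x0, y0, hxy⟩ := hform
  -- the value of `φ₀ ξ`
  have hval : ∀ (η : C) (φ : Dual k C), R η φ = 1 → φ η = 12 := by
    intro η φ h
    have := h1 η φ x0 y0
    rw [h] at this
    simp only [Module.End.one_apply] at this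
    have h3 : (2 : k) = 1 / 6 * φ η := by
      apply mul_right_cancel₀ hxy
      rw [← this]
      ring
    linear_combination - 6 * h3
  have hφξ := hval ξ φ₀ hφ₀
  have hfac : ∀ (v : C) (φ : Dual k C), R v φ = R ξ φ * R v φ₀ := fun v φ => by
    ext x
    exact factor b R ω hω h1 h2 hC ξ φ₀ hφ₀ v φ x
  -- the key containment
  have hkey : ∀ v, ∃ ψ, R v φ₀ = R ξ ψ := by
    let Wsub : Submodule k C := (LinearMap.range (R ξ)).comap (R.flip φ₀)
    have hmemW : ∀ v, v ∈ Wsub ↔ ∃ ψ, R v φ₀ = R ξ ψ := by
      intro v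
      simp only [Wsub, Submodule.mem_comap, LinearMap.mem_range, LinearMap.flip_apply]
      exact ⟨fun ⟨ψ, h⟩ => ⟨ψ, h.symm⟩, fun ⟨ψ, h⟩ => ⟨ψ, h.symm⟩⟩
    have htop : Wsub = ⊤ := by
      by_contra hne
      obtain ⟨ℓ, hℓne, hℓ⟩ := Submodule.exists_le_ker_of_lt_top Wsub (lt_top_iff_ne_top.2 hne)
      have hφ₀ne : φ₀ ≠ 0 := by
        rintro rfl
        rw [LinearMap.zero_apply] at hφξ
        norm_num at hφξ
      obtain ⟨η, hη, hη1, hη2⟩ := hΩ φ₀ ℓ hφ₀ne hℓne
      apply hη2
      have : η ∈ Wsub := by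
        rw [hmemW]
        obtain ⟨φ', hφ'⟩ := h4 η hη
        -- `T = R η φ₀`, `T' = R ξ φ'`
        have hT'T : R ξ φ' * R η φ₀ = 1 := by rw [← hfac, hφ']
        have hTT' : R η φ₀ * R ξ φ' = 1 := mul_eq_one_comm.1 hT'T
        let s : k := (1 / 12 : k) * φ₀ η
        let s' : k := (1 / 12 : k) * φ' ξ
        have hs : s ≠ 0 := mul_ne_zero (by norm_num) hη1
        have hadj : ((2 * s) • (1 : End k B) - R η φ₀) * ((2 * s') • (1 : End k B) - R ξ φ') =
            1 := by
          apply form_ext hω
          intro x y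
          have e1 : ∀ x y, ω x (((2 * s) • (1 : End k B) - R η φ₀) y) = ω (R η φ₀ x) y := by
            intro x y
            rw [LinearMap.sub_apply, LinearMap.smul_apply, Module.End.one_apply, map_sub,
              map_smul, smul_eq_mul]
            have := h1 η φ₀ x y
            simp only [s]
            linear_combination -this
          have e2 : ∀ x y, ω x (((2 * s') • (1 : End k B) - R ξ φ') y) = ω (R ξ φ' x) y := by
            intro x y
            rw [LinearMap.sub_apply, LinearMap.smul_apply, Module.End.one_apply, map_sub,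
              map_smul, smul_eq_mul]
            have := h1 ξ φ' x y
            simp only [s']
            linear_combination -this
          rw [Module.End.mul_apply, e1, e2, ← Module.End.mul_apply, hT'T]
          rfl
        have hrel : s' • R η φ₀ = (2 * s * s') • (1 : End k B) - s • R ξ φ' := by
          have : (4 * s * s') • (1 : End k B) - (2 * s) • R ξ φ' - (2 * s') • R η φ₀ +
              R η φ₀ * R ξ φ' = 1 := by
            have e := hadj
            have h4 : (2 * s * (2 * s')) = 4 * s * s' := by ring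
            rw [expand_mul, h4] at e
            exact e
          rw [hTT'] at this
          have h3 : (2 : k) • (s' • R η φ₀) =
              (2 : k) • ((2 * s * s') • (1 : End k B) - s • R ξ φ') := by
            rw [smul_sub, smul_smul, smul_smul, smul_smul]
            have h4 : (4 * s * s') • (1 : End k B) - (2 * s) • R ξ φ' - (2 * s') • R η φ₀ = 0 := by
              rw [← add_eq_right (b := (1 : End k B))]
              exact this
            have h5 : (2 * (2 * s * s')) = 4 * s * s' := by ring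
            rw [h5]
            exact (sub_eq_zero.1 h4).symm
          exact smul_right_injective _ (two_ne_zero (α := k)) h3
        have hs' : s' ≠ 0 := by
          intro h
          rw [h] at hrel
          simp only [zero_smul, mul_zero, zero_sub] at hrel
          have h3 : s • R ξ φ' = 0 := by
            rw [← neg_eq_zero]
            exact hrel.symm
          have h4' : R ξ φ' = 0 := (smul_eq_zero.1 h3).resolve_left hs
          rw [h4', zero_mul] at hT'T
          exact zero_ne_one hT'T
        refine ⟨(2 * s) • φ₀ - (s / s') • φ', ?_⟩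
        rw [map_sub, map_smul, map_smul, hφ₀]
        apply smul_right_injective _ hs'
        simp only
        rw [hrel, smul_sub, smul_smul, smul_smul]
        congr 2
        · ring
        · field_simp
      exact hℓ this
    intro v
    rw [← hmemW, htop]
    trivial
  choose ψ hψ using hkey
  -- `ψ v ξ = 0` for `v` in the kernel
  have hψξ : ∀ v, φ₀ v = 0 → ψ v ξ = 0 := by
    intro v hv
    have e1 := h1 v φ₀ x0 y0
    have e2 := h1 ξ (ψ v) x0 y0
    rw [← hψ v, e1, hv, mul_zero, zero_mul] at e2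
    rcases mul_eq_zero.1 e2.symm with h | h
    · rcases mul_eq_zero.1 h with h | h
      · norm_num at h
      · exact h
    · exact absurd h hxy
  -- the anticommutation relation
  have hstar : ∀ (v : C) (φ : Dual k C), φ₀ v = 0 → φ ξ = 0 →
      R v φ₀ * R ξ φ + R ξ φ * R v φ₀ = ((1 / 6 : k) * φ v) • (1 : End k B) := by
    intro v φ hv hφ
    apply form_ext hω
    intro x y
    have e1 := h1 v φ x y
    have e2 : ω (R v φ x) y = ω x ((R v φ₀ * R ξ φ) y) := by
      rw [hfac v φ, Module.End.mul_apply, Module.End.mul_apply]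
      have a1 := h1 ξ φ (R v φ₀ x) y
      have a2 := h1 v φ₀ x (R ξ φ y)
      rw [hφ, mul_zero, zero_mul] at a1
      rw [hv, mul_zero, zero_mul] at a2
      linear_combination a1 - a2
    rw [e2, hfac v φ] at e1
    rw [LinearMap.add_apply, map_add, e1, LinearMap.smul_apply, Module.End.one_apply, map_smul,
      smul_eq_mul]
  -- the Clifford module
  let C' : Submodule k C := LinearMap.ker φ₀
  let π : C' →ₗ[k] End k B := (R.flip φ₀) ∘ₗ C'.subtype
  have hπ : ∀ u : C', π u = R (u : C) φ₀ := fun u => rfl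
  have hrelπ : ∀ u v : C', π u * π v + π v * π u =
      ((1 / 6 : k) * ψ (u : C) (v : C)) • (1 : End k B) := by
    intro u v
    have h := hstar (v : C) (ψ (u : C)) v.2 (hψξ u u.2)
    rw [← hψ (u : C), add_comm] at h
    exact h
  let g : LinearMap.BilinForm k C' := LinearMap.mk₂ k
    (fun u v => (1 / 80 : k) * LinearMap.trace k B (π u * π v + π v * π u))
    (by intro a a' c; simp only [map_add, add_mul, mul_add]; ring)
    (by intro r a c; simp only [map_smul, smul_mul_assoc, mul_smul_comm, map_add,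
          smul_eq_mul]; ring)
    (by intro a c c'; simp only [map_add, add_mul, mul_add]; ring)
    (by intro r a c; simp only [map_smul, smul_mul_assoc, mul_smul_comm, map_add,
          smul_eq_mul]; ring)
  have hg : ∀ u v : C', g u v = (1 / 6 : k) * ψ (u : C) (v : C) := by
    intro u v
    simp only [g, LinearMap.mk₂_apply]
    rw [hrelπ, map_smul, LinearMap.trace_one, hB, smul_eq_mul]
    push_cast
    ring
  have hφ₀C : ∀ v, φ₀ v = 0 ↔ v ∈ C' := fun v => by simp [C']
  refine no_cliff_eleven (k := k) two_ne_zero g ?_ ?_ π ?_ ?_ hB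
  · intro u v
    simp only [g, LinearMap.mk₂_apply]
    rw [add_comm]
  · have hzero : ∀ u : C', (∀ v : C', g u v = 0) → u = 0 := by
      intro u hu
      have h1' : ∀ v, φ₀ v = 0 → ψ (u : C) v = 0 := by
        intro v hv
        have := hu ⟨v, (hφ₀C v).1 hv⟩
        rw [hg] at this
        rcases mul_eq_zero.1 this with h | h
        · norm_num at h
        · exact h
      have h2' : ψ (u : C) = 0 := by
        ext v
        have h3 : φ₀ (v - (φ₀ v / 12) • ξ) = 0 := by
          rw [map_sub, map_smul, hφξ, smul_eq_mul]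
          ring
        have h4' := h1' _ h3
        rw [map_sub, map_smul, hψξ _ u.2, smul_zero, sub_zero] at h4'
        exact h4'
      have h3' : R (u : C) φ₀ = 0 := by rw [hψ, h2', map_zero]
      -- all functionals vanishing at `ξ` vanish at `u`
      have h4' : ∀ φ : Dual k C, φ ξ = 0 → φ (u : C) = 0 := by
        intro φ hφ
        have := hstar (u : C) φ u.2 hφ
        rw [h3', zero_mul, mul_zero, add_zero] at this
        have h5 : ((1 / 6 : k) * φ (u : C)) = 0 := by
          rcases smul_eq_zero.1 this.symm with h | h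
          · exact h
          · exact absurd h one_ne_zero
        rcases mul_eq_zero.1 h5 with h | h
        · norm_num at h
        · exact h
      have h5' : ∀ φ : Dual k C, φ (u : C) = 0 := by
        intro φ
        have h6 : (φ - (φ ξ / 12) • φ₀) ξ = 0 := by
          rw [LinearMap.sub_apply, LinearMap.smul_apply, hφξ, smul_eq_mul]
          ring
        have h7 := h4' _ h6
        rw [LinearMap.sub_apply, LinearMap.smul_apply, u.2, smul_zero, sub_zero] at h7
        exact h7
      have h6' : (u : C) = 0 := (Module.forall_dual_apply_eq_zero_iff k (u : C)).1 h5'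
      exact Subtype.ext h6'
    have hsymm : ∀ u v : C', g u v = g v u := by
      intro u v
      simp only [g, LinearMap.mk₂_apply]
      rw [add_comm]
    exact ⟨fun u hu => hzero u hu, fun u hu => hzero u fun v => by rw [hsymm]; exact hu v⟩
  · intro u v
    rw [hrelπ, hg, Algebra.algebraMap_eq_smul_one]
  · have h := LinearMap.finrank_range_add_finrank_ker φ₀
    have hsurj : LinearMap.range φ₀ = ⊤ := by
      rw [LinearMap.range_eq_top]
      intro r
      exact ⟨(r / 12) • ξ, by rw [map_smul, hφξ, smul_eq_mul]; ring⟩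
    rw [hsurj, finrank_top, Module.finrank_self, hC] at h
    have : finrank k C' = 11 := by
      show finrank k (LinearMap.ker φ₀) = 11
      omega
    exact this

end LicciX
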