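import Mathlib

/-!
# Clifford modules and the `sl₂` argument

* `pow_dvd_finrank`: `2 m` anticommuting involutions on `B` force `2 ^ m ∣ dim B`.
* `cliff_dvd`: a module over the Clifford algebra of a nondegenerate symmetric bilinear form of
  rank `n` over an algebraically closed field has dimension divisible by `2 ^ (n / 2)`.
* `no_sl2`: the relations of the case `b = 2` are impossible on a non-zero finite dimensional space.
-/

namespace LicciX

open Module

universe u v w

section Cliff

variable {k : Type u} [Field k]

theorem two_mul_finrank_plus {B : Type v} [AddCommGroup B] [Module k B] [FiniteDimensional k B]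
    (h2 : (2 : k) ≠ 0) (e e' : Module.End k B) (he : e * e = 1) (he' : e' * e' = 1)
    (hanti : e' * e = - (e * e')) :
    finrank k B = 2 * finrank k (LinearMap.ker (e - 1)) := by
  have hee : ∀ x, e (e x) = x := fun x => by
    have := congrArg (fun f : Module.End k B => f x) he
    simpa using this
  have hee' : ∀ x, e' (e' x) = x := fun x => by
    have := congrArg (fun f : Module.End k B => f x) he'
    simpa using this
  have ha : ∀ x, e' (e x) = - e (e' x) := fun x => by
    have := congrArg (fun f : Module.End k B => f x) hanti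
    simpa using this
  let P := LinearMap.ker (e - 1)
  have memP : ∀ x, x ∈ P ↔ e x = x := fun x => by
    simp only [P, LinearMap.mem_ker, LinearMap.sub_apply, Module.End.one_apply, sub_eq_zero]
  let ψ : (P × P) →ₗ[k] B := P.subtype.coprod (e' ∘ₗ P.subtype)
  have hψ : ∀ p : P × P, ψ p = (p.1 : B) + e' (p.2 : B) := fun p => by
    simp [ψ, LinearMap.coprod_apply]
  have hinj : Function.Injective ψ := by
    rw [← LinearMap.ker_eq_bot, LinearMap.ker_eq_bot']
    rintro ⟨a, b⟩ h
    rw [hψ] at h
    simp only at h
    have ha1 := (memP _).1 a.2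
    have hb1 := (memP _).1 b.2
    have h1 : (a : B) - e' (b : B) = 0 := by
      have := congrArg e h
      rw [map_add, ha1, map_zero] at this
      have h3 : e (e' (b : B)) = - e' (b : B) := by
        have := ha (b : B)
        rw [hb1] at this
        rw [← neg_eq_iff_eq_neg]
        exact this.symm
      rw [h3] at this
      rw [sub_eq_add_neg]
      exact this
    have h4 : (2 : k) • (a : B) = 0 := by
      rw [two_smul]
      have := congrArg₂ (· + ·) h h1
      simp only [add_zero] at this
      rw [← this]
      abel
    have ha0 : (a : B) = 0 := by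
      rcases smul_eq_zero.1 h4 with h5 | h5
      · exact absurd h5 h2
      · exact h5
    have hb0 : (b : B) = 0 := by
      rw [ha0, zero_add] at h
      rw [← hee' (b : B), h, map_zero]
    ext
    · simpa using ha0
    · simpa using hb0
  have hsurj : Function.Surjective ψ := by
    intro x
    let a : B := (2 : k)⁻¹ • (x + e x)
    let b : B := (2 : k)⁻¹ • (e' x + e (e' x))
    have haP : a ∈ P := by
      rw [memP]
      simp only [a, map_smul, map_add, hee]
      rw [add_comm]
    have hbP : b ∈ P := by
      rw [memP]
      simp only [b, map_smul, map_add, hee]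
      rw [add_comm]
    refine ⟨(⟨a, haP⟩, ⟨b, hbP⟩), ?_⟩
    rw [hψ]
    simp only [a, b, map_smul, map_add, hee', ha]
    rw [← smul_add]
    have : x + e x + (x + -e x) = (2 : k) • x := by rw [two_smul]; abel
    rw [this, smul_smul, inv_mul_cancel₀ h2, one_smul]
  have e1 := LinearEquiv.finrank_eq (LinearEquiv.ofBijective ψ ⟨hinj, hsurj⟩)
  rw [← e1, Module.finrank_prod, two_mul]

theorem pow_dvd_finrank (h2 : (2 : k) ≠ 0) (i : k) (hi : i * i = -1) (m : ℕ) :
    ∀ (B : Type v) [AddCommGroup B] [Module k B] [FiniteDimensional k B]
      (e : Fin (2 * m) → Module.End k B), (∀ j, e j * e j = 1) →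
      (∀ j l, j ≠ l → e j * e l = - (e l * e j)) → 2 ^ m ∣ finrank k B := by
  induction m with
  | zero => intro B _ _ _ e _ _; simp
  | succ m ih =>
    intro B _ _ _ e hsq hanti
    have hsq' : ∀ j x, e j (e j x) = x := fun j x => by
      have := congrArg (fun f : Module.End k B => f x) (hsq j)
      simpa using this
    have hanti' : ∀ j l, j ≠ l → ∀ x, e j (e l x) = - e l (e j x) := fun j l h x => by
      have := congrArg (fun f : Module.End k B => f x) (hanti j l h)
      simpa using this
    let z : Fin (2 * (m + 1)) := ⟨0, by omega⟩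
    let o : Fin (2 * (m + 1)) := ⟨1, by omega⟩
    let s : Fin (2 * m) → Fin (2 * (m + 1)) := fun j => ⟨j + 2, by omega⟩
    have hzo : o ≠ z := by
      intro h
      have := congrArg Fin.val h
      simp [z, o] at this
    have hsz : ∀ j, s j ≠ z := by
      intro j h
      have := congrArg Fin.val h
      simp [z, s] at this
    have hso : ∀ j, s j ≠ o := by
      intro j h
      have := congrArg Fin.val h
      simp [o, s] at this
    have hss : ∀ j l, j ≠ l → s j ≠ s l := by
      intro j l hjl h
      have := congrArg Fin.val h
      simp only [s, add_left_inj] at this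
      exact hjl (Fin.ext this)
    let P := LinearMap.ker (e z - 1)
    have memP : ∀ x, x ∈ P ↔ e z x = x := fun x => by
      simp only [P, LinearMap.mem_ker, LinearMap.sub_apply, Module.End.one_apply, sub_eq_zero]
    have hmap : ∀ j, ∀ x ∈ P, (i • (e o * e (s j))) x ∈ P := by
      intro j x hx
      rw [memP] at hx ⊢
      simp only [LinearMap.smul_apply, Module.End.mul_apply, map_smul]
      congr 1
      rw [hanti' z o hzo.symm, hanti' z (s j) (hsz j).symm, hx, map_neg, neg_neg]
    let e' : Fin (2 * m) → Module.End k P := fun j => (i • (e o * e (s j))).restrict (hmap j)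
    have he' : ∀ j (x : P), ((e' j x : P) : B) = i • e o (e (s j) (x : B)) := fun j x => by
      simp [e', LinearMap.restrict_apply]
    have key := ih P e' (by
      intro j
      ext x
      rw [Module.End.mul_apply, he', he', Module.End.one_apply]
      rw [map_smul, map_smul, smul_smul, hi, hanti' (s j) o (hso j), map_neg, hsq', hsq']
      simp) (by
      intro j l hjl
      ext x
      rw [Module.End.mul_apply, LinearMap.neg_apply, Module.End.mul_apply, Submodule.coe_neg, he',
        he', he', he']
      simp only [map_smul, smul_smul, hi]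
      rw [hanti' (s j) o (hso j), hanti' (s l) o (hso l), map_neg, map_neg, hsq', hsq',
        hanti' (s j) (s l) (hss j l hjl)]
      simp)
    rw [two_mul_finrank_plus h2 (e z) (e o) (hsq z) (hsq o) (hanti o z hzo), pow_succ, mul_comm]
    exact Nat.mul_dvd_mul_left 2 key

/-- Modules over the Clifford algebra of a nondegenerate symmetric bilinear form. -/
theorem cliff_dvd [IsAlgClosed k] (h2 : (2 : k) ≠ 0) {C : Type w} [AddCommGroup C] [Module k C]
    [FiniteDimensional k C] {B : Type v} [AddCommGroup B] [Module k B] [FiniteDimensional k B]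
    (g : LinearMap.BilinForm k C) (hg : ∀ u v, g u v = g v u) (hnd : g.Nondegenerate)
    (π : C →ₗ[k] Module.End k B)
    (hπ : ∀ u v, π u * π v + π v * π u = algebraMap k (Module.End k B) (g u v)) :
    2 ^ (finrank k C / 2) ∣ finrank k B := by
  have : Invertible (2 : k) := invertibleOfNonzero h2
  obtain ⟨v, hv⟩ := LinearMap.BilinForm.exists_orthogonal_basis (B := g) ⟨fun x y => hg x y⟩
  have hne : ∀ i, g (v i) (v i) ≠ 0 := fun i =>
    hv.not_isOrtho_basis_self_of_separatingLeft hnd.1 i
  have hs : ∀ i, ∃ c : k, c * c = g (v i) (v i) * (2 : k)⁻¹ := fun i =>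
    (IsAlgClosed.exists_eq_mul_self (g (v i) (v i) * (2 : k)⁻¹)).imp fun c hc => hc.symm
  choose c hc using hs
  have hc0 : ∀ i, c i ≠ 0 := fun i h => by
    have := hc i
    rw [h, zero_mul] at this
    exact mul_ne_zero (hne i) (inv_ne_zero h2) this.symm
  obtain ⟨i, hi⟩ := IsAlgClosed.exists_eq_mul_self (-1 : k)
  let t : Fin (2 * (finrank k C / 2)) → Fin (finrank k C) := fun j => ⟨j, by omega⟩
  have ht : ∀ j l, j ≠ l → t j ≠ t l := by
    intro j l hjl h
    have h' := congrArg Fin.val h
    exact hjl (Fin.ext h')
  have hsq : ∀ j, π (v j) * π (v j) = algebraMap k (Module.End k B) (c j * c j) := fun j => by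
    have h := hπ (v j) (v j)
    rw [← two_smul k] at h
    rw [hc, mul_comm, map_mul, ← h, ← Algebra.smul_def, smul_smul, inv_mul_cancel₀ h2, one_smul]
  refine pow_dvd_finrank h2 i hi.symm (finrank k C / 2) B
    (fun j => (c (t j))⁻¹ • π (v (t j))) ?_ ?_
  · intro j
    rw [smul_mul_smul_comm, hsq, ← mul_inv, Algebra.smul_def, ← map_mul,
      inv_mul_cancel₀ (mul_ne_zero (hc0 _) (hc0 _)), map_one]
  · intro j l hjl
    rw [smul_mul_smul_comm, smul_mul_smul_comm, mul_comm (c (t l))⁻¹, ← smul_neg]
    congr 1
    have h := hπ (v (t j)) (v (t l))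
    have h0 : g (v (t j)) (v (t l)) = 0 := hv (ht j l hjl)
    rw [h0, map_zero] at h
    exact eq_neg_of_add_eq_zero_left h

/-- The last step of the case of eight generators in grade six. -/
theorem no_cliff_eleven [IsAlgClosed k] (h2 : (2 : k) ≠ 0) {C : Type w} [AddCommGroup C]
    [Module k C] [FiniteDimensional k C] {B : Type v} [AddCommGroup B] [Module k B]
    [FiniteDimensional k B] (g : LinearMap.BilinForm k C) (hg : ∀ u v, g u v = g v u) (hnd : g.Nondegenerate)
    (π : C →ₗ[k] Module.End k B)
    (hπ : ∀ u v, π u * π v + π v * π u = algebraMap k (Module.End k B) (g u v))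
    (hC : finrank k C = 11) (hB : finrank k B = 80) : False := by
  have h := cliff_dvd h2 g hg hnd π hπ
  rw [hC, hB] at h
  norm_num at h

end Cliff

section Sl2

attribute [local instance] LieRing.ofAssociativeRing

/-- The relations of the case `b = 2`. -/
theorem no_sl2 {k : Type u} [Field k] [IsAlgClosed k] [CharZero k] {B : Type v} [AddCommGroup B]
    [Module k B] [FiniteDimensional k B] [Nontrivial B] (a e f : Module.End k B)
    (hae : a * e - e * a = (5 / 6 : k) • e) (haf : a * f - f * a = - ((5 / 6 : k) • f))
    (hef : e * f - f * e = (5 / 3 : k) • a)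
    (hcas : (2 : k) • (a * a) + e * f + f * e = algebraMap k _ (11 / 72 : k)) : False := by
  let h : Module.End k B := (12 / 5 : k) • a
  let e' : Module.End k B := (6 / 5 : k) • e
  let f' : Module.End k B := (6 / 5 : k) • f
  have he'f' : e' * f' - f' * e' = h := by
    simp only [e', f', h, smul_mul_smul_comm, ← smul_sub, hef, smul_smul]
    norm_num
  have hhe : h * e' - e' * h = (2 : k) • e' := by
    simp only [e', h, smul_mul_smul_comm, mul_comm (6 / 5 : k), ← smul_sub, hae, smul_smul]
    norm_num
  have hhf : h * f' - f' * h = - ((2 : k) • f') := by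
    simp only [f', h, smul_mul_smul_comm, mul_comm (6 / 5 : k), ← smul_sub, haf, smul_smul,
      smul_neg]
    norm_num
  have hcas' : (1 / 2 : k) • (h * h) + e' * f' + f' * e' = algebraMap k _ (11 / 50 : k) := by
    have : (11 / 50 : k) = (36 / 25) * (11 / 72) := by norm_num
    rw [this, map_mul, ← hcas, ← Algebra.smul_def]
    simp only [e', f', h, smul_mul_smul_comm, smul_add, smul_smul]
    norm_num
  by_cases hne : h = 0
  · -- then `e' = f' = 0`
    have he0 : (2 : k) • e' = 0 := by rw [← hhe, hne]; simp
    have he1 : e' = 0 := (smul_eq_zero.1 he0).resolve_left two_ne_zero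
    rw [hne, he1] at hcas'
    simp only [mul_zero, smul_zero, zero_mul, add_zero] at hcas'
    have := (algebraMap k (Module.End k B)).injective (hcas'.symm.trans (map_zero _).symm)
    norm_num at this
  · have t : IsSl2Triple h e' f' :=
      { h_ne_zero := hne
        lie_e_f := he'f'
        lie_h_e_nsmul := by rw [Ring.lie_def, hhe, two_smul, two_nsmul]
        lie_h_f_nsmul := by rw [Ring.lie_def, hhf, two_smul, two_nsmul] }
    obtain ⟨μ, m, hm, hP⟩ := t.exists_hasPrimitiveVectorWith (R := k) (M := B)
    obtain ⟨n, hn⟩ := hP.exists_nat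
    have h1 : h m = μ • m := hP.lie_h
    have h2 : e' m = 0 := hP.lie_e
    have h3 : e' (f' m) = μ • m := by
      have := congrArg (fun g : Module.End k B => g m) he'f'
      simp only [LinearMap.sub_apply, Module.End.mul_apply, h2, map_zero, sub_zero] at this
      rw [this, h1]
    have h4 := congrArg (fun g : Module.End k B => g m) hcas'
    simp only [LinearMap.add_apply, LinearMap.smul_apply, Module.End.mul_apply, h2, map_zero,
      add_zero, h3, h1, map_smul, smul_smul, Module.algebraMap_end_apply] at h4
    rw [← add_smul] at h4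
    have h5 := smul_left_injective k hm h4
    rw [hn] at h5
    have h6 : (25 * (n : k) * n + 50 * n) = 11 := by
      linear_combination 50 * h5
    have h7 : (25 * n * n + 50 * n : ℕ) = 11 := by exact_mod_cast h6
    have h8 : n = 0 ∨ 1 ≤ n := by omega
    rcases h8 with h8 | h8
    · rw [h8] at h7; simp at h7
    · have : 50 ≤ 50 * n := by omega
      omega

end Sl2

end LicciX
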