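import Pool.Agent.Work.MP_a98e4e_ag.XE.Ext

/-!
# LICCI, codimension 6: the lifting lemma for complexes with torsion cohomology

`K`, `L` complexes of finite free modules over a local ring of depth six, `H ^ i (K)` killed by
a power of the maximal ideal for `i ≥ 1`, `K` in degrees `≤ t`, `L` in degrees `≥ -s` and exact in
negative degrees. For `s + t ≤ 4` every map `H ^ 0 (K) → H ^ 0 (L)` is induced by a chain map, for
`s + t ≤ 5` a chain map which is zero on `H ^ 0` is null-homotopic.
-/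

namespace Pool.Agent.Licci.XE

open CategoryTheory Abelian RingTheory.Sequence IsLocalRing

universe u

variable {R : Type u} [CommRing R]

/-- `Ext ^ i (N, Q) = 0` -/
def EV (R : Type u) [CommRing R] (N Q : Type u) [AddCommGroup N] [Module R N] [AddCommGroup Q]
    [Module R Q] (i : ℕ) : Prop :=
  Subsingleton (Ext (ModuleCat.of R N) (ModuleCat.of R Q) i)

variable {A B C Q : Type u} [AddCommGroup A] [Module R A] [AddCommGroup B] [Module R B]
  [AddCommGroup C] [Module R C] [AddCommGroup Q] [Module R Q]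

section les

variable {f : A →ₗ[R] B} {g : B →ₗ[R] C} (hf : Function.Injective f)
    (hfg : Function.Exact f g) (hg : Function.Surjective g)

include hf hfg hg

theorem EV.mid {i : ℕ} (hA : EV R A Q i) (hC : EV R C Q i) : EV R B Q i := by
  have hS := shortExact_of hf hfg hg
  refine ⟨fun x y => ?_⟩
  unfold EV at hA hC
  have h : ∀ z : Ext (ModuleCat.of R B) (ModuleCat.of R Q) i, z = 0 := by
    intro z
    obtain ⟨w, hw⟩ := Ext.contravariant_sequence_exact₂ hS (ModuleCat.of R Q) z
      (hA.elim _ _)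
    rw [← hw, hC.elim w 0, Ext.comp_zero]
  rw [h x, h y]

theorem EV.left {i : ℕ} (hB : EV R B Q i) (hC : EV R C Q (i + 1)) : EV R A Q i := by
  have hS := shortExact_of hf hfg hg
  unfold EV at hB hC
  refine ⟨fun x y => ?_⟩
  have h : ∀ z : Ext (ModuleCat.of R A) (ModuleCat.of R Q) i, z = 0 := by
    intro z
    obtain ⟨w, hw⟩ := Ext.contravariant_sequence_exact₁ hS (ModuleCat.of R Q) z (add_comm 1 i)
      (hC.elim _ _)
    rw [← hw, hB.elim w 0, Ext.comp_zero]
  rw [h x, h y]

theorem EV.snd {N : Type u} [AddCommGroup N] [Module R N] {i : ℕ} (hB : EV R N B i)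
    (hA : EV R N A (i + 1)) : EV R N C i := by
  have hS := shortExact_of hf hfg hg
  unfold EV at hB hA
  refine ⟨fun x y => ?_⟩
  have h : ∀ z : Ext (ModuleCat.of R N) (ModuleCat.of R C) i, z = 0 := by
    intro z
    obtain ⟨w, hw⟩ := Ext.covariant_sequence_exact₃ (ModuleCat.of R N) hS z rfl
      (hA.elim _ _)
    rw [← hw, hB.elim w 0, Ext.zero_comp]
  rw [h x, h y]

/-- extension of maps -/
theorem EV.extend (hC : EV R C Q 1) (φ : A →ₗ[R] Q) : ∃ ψ : B →ₗ[R] Q, ∀ a, ψ (f a) = φ a := by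
  have hS := shortExact_of hf hfg hg
  unfold EV at hC
  obtain ⟨w, hw⟩ := Ext.contravariant_sequence_exact₁ hS (ModuleCat.of R Q)
    (Ext.mk₀ (ModuleCat.ofHom φ)) rfl (hC.elim _ _)
  obtain ⟨ψ, rfl⟩ := (Ext.mk₀_bijective _ _).2 w
  refine ⟨ψ.hom, fun a => ?_⟩
  rw [Ext.mk₀_comp_mk₀] at hw
  have h := (Ext.mk₀_bijective _ _).1 hw
  have h2 := congrArg (fun k => k.hom a) h
  exact h2

end les

theorem EV.proj [Module.Projective R A] (i : ℕ) : EV R A Q (i + 1) := by
  have : Projective (ModuleCat.of R A) := by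
    have : Module.Projective R A := inferInstance
    exact (IsProjective.iff_projective A).1 this
  exact ⟨fun x y => (Ext.eq_zero_of_projective x).trans (Ext.eq_zero_of_projective y).symm⟩

theorem EV.zero_of {i : ℕ} [Subsingleton A] : EV R A Q i := by
  cases i with
  | zero =>
    have : Subsingleton (A →ₗ[R] Q) := ⟨fun f g => LinearMap.ext fun x => by
      rw [Subsingleton.elim x 0, map_zero, map_zero]⟩
    exact (Ext.addEquiv₀.trans ModuleCat.homAddEquiv).subsingleton
  | succ n => exact EV.proj (A := A) n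

theorem EV.zero_of' {i : ℕ} [Subsingleton Q] : EV R A Q i := by
  have h0 : CategoryTheory.Limits.IsZero (ModuleCat.of R Q) := ModuleCat.isZero_of_subsingleton _
  refine ⟨fun x y => ?_⟩
  have h : ∀ z : Ext (ModuleCat.of R A) (ModuleCat.of R Q) i, z = 0 := by
    intro z
    have h1 : (𝟙 (ModuleCat.of R Q)) = 0 := h0.eq_of_src _ _
    rw [← Ext.comp_mk₀_id z, h1, Ext.mk₀_zero, Ext.comp_zero]
  rw [h x, h y]

/-- `Ext ^ i (T, Q) = 0` for all finite torsion modules `T` and `i < k` -/
def Dp (R : Type u) [CommRing R] [IsLocalRing R] (k : ℕ) (Q : Type u) [AddCommGroup Q]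
    [Module R Q] : Prop :=
  ∀ (T : Type u) [AddCommGroup T] [Module R T] [Module.Finite R T], Tors R T →
    ∀ i < k, EV R T Q i

variable [IsLocalRing R]

theorem Dp.mono {k l : ℕ} (h : Dp R k Q) (hl : l ≤ k) : Dp R l Q :=
  fun T _ _ _ hT i hi => h T hT i (by omega)

/-- Rees -/
theorem Dp.free [IsNoetherianRing R] (hd : Depth6 R) [Module.Finite R Q] [Module.Free R Q] :
    Dp R 6 Q := by
  obtain ⟨rs, hlen, hmem, hreg⟩ := hd
  intro T _ _ _ hT i hi
  by_cases hQ : Subsingleton Q
  · exact EV.zero_of'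
  rw [not_subsingleton_iff_nontrivial] at hQ
  obtain ⟨k, hk⟩ := hT
  have hw : IsWeaklyRegular Q rs := by
    have h1 := IsWeaklyRegular.isWeaklyRegular_lTensor (M₂ := Q) hreg.toIsWeaklyRegular
    exact (LinearEquiv.isWeaklyRegular_congr (TensorProduct.rid R Q) _).1 h1
  have hne : ∀ I : Ideal R, I ≤ maximalIdeal R → I • (⊤ : Submodule R Q) ≠ ⊤ := by
    intro I hI h
    have h1 : (⊤ : Submodule R Q) ≤ ⊥ := by
      refine Submodule.le_of_le_smul_of_le_jacobson_bot (I := maximalIdeal R)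
        Module.Finite.fg_top (IsLocalRing.maximalIdeal_le_jacobson ⊥) ?_
      rw [bot_sup_eq]
      calc (⊤ : Submodule R Q) = I • ⊤ := h.symm
        _ ≤ maximalIdeal R • ⊤ := Submodule.smul_mono_left hI
    obtain ⟨x, hx⟩ := exists_ne (0 : Q)
    exact hx (by simpa using h1 (show x ∈ (⊤ : Submodule R Q) from trivial))
  have hr : IsRegular Q rs := by
    refine ⟨hw, ?_⟩
    intro h
    refine hne (Ideal.ofList rs) ?_ h.symm
    rw [Ideal.ofList, Ideal.span_le]
    intro r hr
    exact hmem r hr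
  have h := ModuleCat.subsingleton_ext_of_exists_isRegular (maximalIdeal R) (ModuleCat.of R T) ?_
    (ModuleCat.of R Q) (lt_top_iff_ne_top.2 (hne _ le_rfl)) rs hmem hr i (by omega)
  · exact h
  · rw [Module.support_eq_zeroLocus, PrimeSpectrum.zeroLocus_subset_zeroLocus_iff]
    intro r hr
    refine ⟨k, ?_⟩
    rw [Module.mem_annihilator]
    exact fun x => hk _ (Ideal.pow_mem_pow hr k) x

theorem Dp.coker {k : ℕ} {f : A →ₗ[R] B} {g : B →ₗ[R] C} (hf : Function.Injective f)
    (hfg : Function.Exact f g) (hg : Function.Surjective g) (hA : Dp R (k + 1) A)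
    (hB : Dp R k B) : Dp R k C :=
  fun T _ _ _ hT i hi => EV.snd hf hfg hg (hB T hT i hi) (hA T hT (i + 1) (by omega))

/-- `Dp 1`: a torsion module has no nonzero map -/
theorem Dp.hom_eq_zero {k : ℕ} (h : Dp R (k + 1) Q) {T : Type u} [AddCommGroup T] [Module R T]
    [Module.Finite R T] (hT : Tors R T) (φ : T →ₗ[R] Q) : φ = 0 := by
  have h1 : EV R T Q 0 := h T hT 0 (by omega)
  unfold EV at h1
  have h2 : Ext.mk₀ (ModuleCat.ofHom φ) = Ext.mk₀ (ModuleCat.ofHom (0 : T →ₗ[R] Q)) :=
    h1.elim _ _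
  have h3 := (Ext.mk₀_bijective _ _).1 h2
  refine LinearMap.ext fun x => ?_
  exact congrArg (fun k => k.hom x) h3

/-! ### A complex with torsion cohomology -/

set_option linter.unusedSectionVars false

section source

variable [IsNoetherianRing R] {K : ℕ → Type u} [∀ i, AddCommGroup (K i)] [∀ i, Module R (K i)]
  [∀ i, Module.Finite R (K i)] [∀ i, Module.Projective R (K i)]
  {dK : ∀ i, K i →ₗ[R] K (i + 1)}

/-- the cohomology at `K (i + 1)` is killed by a power of the maximal ideal -/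
def TorsAt (dK : ∀ i, K i →ₗ[R] K (i + 1)) (i : ℕ) : Prop :=
  ∃ n : ℕ, ∀ r ∈ maximalIdeal R ^ n, ∀ z : K (i + 1), dK (i + 1) z = 0 → ∃ y, dK i y = r • z

/-- `B → Z` -/
def inclBZ (hdd : ∀ i x, dK (i + 1) (dK i x) = 0) (i : ℕ) :
    LinearMap.range (dK i) →ₗ[R] LinearMap.ker (dK (i + 1)) :=
  Submodule.inclusion (by rintro _ ⟨x, rfl⟩; exact hdd i x)

theorem tors_H (hdd : ∀ i x, dK (i + 1) (dK i x) = 0) {i : ℕ} (hT : TorsAt dK i) :
    Tors R (LinearMap.ker (dK (i + 1)) ⧸ LinearMap.range (inclBZ hdd i)) := by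
  obtain ⟨n, hn⟩ := hT
  refine ⟨n, fun r hr x => ?_⟩
  obtain ⟨z, rfl⟩ := Submodule.Quotient.mk_surjective _ x
  rw [← Submodule.Quotient.mk_smul, Submodule.Quotient.mk_eq_zero]
  obtain ⟨y, hy⟩ := hn r hr z z.2
  exact ⟨⟨dK i y, y, rfl⟩, Subtype.ext hy⟩

theorem ev_range (hdd : ∀ i x, dK (i + 1) (dK i x) = 0) {k t c : ℕ} (hQ : Dp R k Q)
    (ht : ∀ i, c + 1 + t < i → Subsingleton (K i)) (hT : ∀ i, c + 1 ≤ i → TorsAt dK i) :
    ∀ e i : ℕ, c + 1 ≤ i → c + 1 + t ≤ i + e → ∀ j, j + 1 + e < k →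
      EV R (LinearMap.range (dK i)) Q (j + 1) := by
  intro e
  induction e with
  | zero =>
    intro i hi he j hj
    have : Subsingleton (K (i + 1)) := ht _ (by omega)
    have : Subsingleton (LinearMap.range (dK i)) :=
      ⟨fun a b => Subtype.ext (Subsingleton.elim _ _)⟩
    exact EV.zero_of
  | succ e ih =>
    intro i hi he j hj
    have h1 : EV R (LinearMap.range (dK (i + 1))) Q (j + 1 + 1) :=
      ih (i + 1) (by omega) (by omega) (j + 1) (by omega)
    have h2 : EV R (LinearMap.ker (dK (i + 1))) Q (j + 1) :=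
      EV.left (f := (LinearMap.ker (dK (i + 1))).subtype) (g := (dK (i + 1)).rangeRestrict)
        Subtype.val_injective
        (fun y => ⟨fun hy => ⟨⟨y, by
            have := congrArg Subtype.val hy
            exact this⟩, rfl⟩, by
          rintro ⟨⟨z, hz⟩, rfl⟩
          exact Subtype.ext hz⟩)
        (LinearMap.surjective_rangeRestrict _) (EV.proj j) h1
    have h3 : EV R (LinearMap.ker (dK (i + 1)) ⧸ LinearMap.range (inclBZ hdd i)) Q (j + 1 + 1) :=
      hQ _ (tors_H hdd (hT i hi)) _ (by omega)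
    exact EV.left (f := inclBZ hdd i) (g := (LinearMap.range (inclBZ hdd i)).mkQ)
      (Submodule.inclusion_injective _)
      (LinearMap.exact_iff.2 (by rw [Submodule.ker_mkQ])) (Submodule.mkQ_surjective _) h2 h3

/-- a map from `K i` which vanishes on the cycles extends over `K (i + 1)` -/
theorem extend_next (hdd : ∀ i x, dK (i + 1) (dK i x) = 0) {k t c : ℕ} (hQ : Dp R k Q)
    (ht : ∀ i, c + 1 + t < i → Subsingleton (K i)) (hT : ∀ i, c + 1 ≤ i → TorsAt dK i)
    {i : ℕ} (hi : c + 1 ≤ i) {e : ℕ} (he : c + 1 + t ≤ i + 1 + e) (hk : 1 + e < k)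
    (g : K i →ₗ[R] Q) (hg : ∀ x, dK i x = 0 → g x = 0) :
    ∃ ψ : K (i + 1) →ₗ[R] Q, ∀ x, ψ (dK i x) = g x := by
  -- the map on the boundaries
  let φ : LinearMap.range (dK i) →ₗ[R] Q :=
    ((LinearMap.ker (dK i)).liftQ g (fun x hx => hg x hx)).comp
      (dK i).quotKerEquivRange.symm.toLinearMap
  have hφ : ∀ x, φ ⟨dK i x, x, rfl⟩ = g x := by
    intro x
    have h1 : (dK i).quotKerEquivRange.symm ⟨dK i x, x, rfl⟩ = Submodule.Quotient.mk x := by
      rw [LinearEquiv.symm_apply_eq]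
      rfl
    show ((LinearMap.ker (dK i)).liftQ g (fun x hx => hg x hx))
      ((dK i).quotKerEquivRange.symm ⟨dK i x, x, rfl⟩) = g x
    rw [h1]
    rfl
  -- extension to the cycles
  have h3 : EV R (LinearMap.ker (dK (i + 1)) ⧸ LinearMap.range (inclBZ hdd i)) Q 1 :=
    hQ _ (tors_H hdd (hT i hi)) _ (by omega)
  obtain ⟨φ1, hφ1⟩ := EV.extend (f := inclBZ hdd i) (g := (LinearMap.range (inclBZ hdd i)).mkQ)
      (Submodule.inclusion_injective _)
      (LinearMap.exact_iff.2 (by rw [Submodule.ker_mkQ])) (Submodule.mkQ_surjective _) h3 φ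
  -- extension to everything
  have h4 : EV R (LinearMap.range (dK (i + 1))) Q 1 :=
    ev_range hdd hQ ht hT e (i + 1) (by omega) he 0 (by omega)
  obtain ⟨φ2, hφ2⟩ := EV.extend (f := (LinearMap.ker (dK (i + 1))).subtype)
    (g := (dK (i + 1)).rangeRestrict) Subtype.val_injective
        (fun y => ⟨fun hy => ⟨⟨y, by
            have := congrArg Subtype.val hy
            exact this⟩, rfl⟩, by
          rintro ⟨⟨z, hz⟩, rfl⟩
          exact Subtype.ext hz⟩)
        (LinearMap.surjective_rangeRestrict _) h4 φ1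
  refine ⟨φ2, fun x => ?_⟩
  rw [← hφ x, ← hφ1, ← hφ2]
  rfl

/-- a map on the cycles extends to everything -/
theorem extend_ker (hdd : ∀ i x, dK (i + 1) (dK i x) = 0) {k t c : ℕ} (hQ : Dp R k Q)
    (ht : ∀ i, c + 1 + t < i → Subsingleton (K i)) (hT : ∀ i, c + 1 ≤ i → TorsAt dK i)
    (hk : 1 + t < k) (φ : LinearMap.ker (dK (c + 1)) →ₗ[R] Q) :
    ∃ ψ : K (c + 1) →ₗ[R] Q, ∀ x : LinearMap.ker (dK (c + 1)), ψ x = φ x := by
  have h4 : EV R (LinearMap.range (dK (c + 1))) Q 1 :=
    ev_range hdd hQ ht hT t (c + 1) (by omega) (by omega) 0 (by omega)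
  exact EV.extend (f := (LinearMap.ker (dK (c + 1))).subtype)
    (g := (dK (c + 1)).rangeRestrict) Subtype.val_injective
        (fun y => ⟨fun hy => ⟨⟨y, by
            have := congrArg Subtype.val hy
            exact this⟩, rfl⟩, by
          rintro ⟨⟨z, hz⟩, rfl⟩
          exact Subtype.ext hz⟩)
        (LinearMap.surjective_rangeRestrict _) h4 φ

/-- a map which vanishes on the boundaries vanishes on the cycles -/
theorem zero_on_cycles (hdd : ∀ i x, dK (i + 1) (dK i x) = 0) {k : ℕ} (hQ : Dp R (k + 1) Q)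
    {i : ℕ} (hT : TorsAt dK i) (ψ : K (i + 1) →ₗ[R] Q) (hψ : ∀ x, ψ (dK i x) = 0) (z : K (i + 1))
    (hz : dK (i + 1) z = 0) : ψ z = 0 := by
  let φ : (LinearMap.ker (dK (i + 1)) ⧸ LinearMap.range (inclBZ hdd i)) →ₗ[R] Q :=
    (LinearMap.range (inclBZ hdd i)).liftQ (ψ.comp (LinearMap.ker (dK (i + 1))).subtype) (by
      rintro _ ⟨⟨_, y, rfl⟩, rfl⟩
      exact hψ y)
  have h := hQ.hom_eq_zero (tors_H hdd hT) φ
  have h2 := LinearMap.congr_fun h (Submodule.Quotient.mk ⟨z, hz⟩)
  exact h2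

end source

/-! ### A complex which is exact in negative degrees -/

section target

variable [IsNoetherianRing R] {L : ℕ → Type u} [∀ i, AddCommGroup (L i)] [∀ i, Module R (L i)]
  [∀ i, Module.Finite R (L i)] [∀ i, Module.Free R (L i)]
  {dL : ∀ i, L i →ₗ[R] L (i + 1)}

theorem Dp.of_subsingleton {k : ℕ} [Subsingleton Q] : Dp R k Q := fun _ _ _ _ _ _ _ => EV.zero_of'

theorem dp_range (hd : Depth6 R) {c s : ℕ}
    (h0 : ∀ i, i + s < c + 1 → Subsingleton (L i))
    (hex0 : ∀ x, dL 0 x = 0 → x = 0)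
    (hex : ∀ i, i + 1 < c + 1 → ∀ z, dL (i + 1) z = 0 → ∃ y, dL i y = z)
    (hdd : ∀ i x, dL (i + 1) (dL i x) = 0) :
    ∀ n j : ℕ, j + s = c + n → j < c + 1 → Dp R (7 - n) (LinearMap.range (dL j)) := by
  intro n
  induction n with
  | zero =>
    intro j hj hjc
    have : Subsingleton (L j) := h0 j (by omega)
    have : Subsingleton (LinearMap.range (dL j)) := by
      refine ⟨?_⟩
      rintro ⟨_, x, rfl⟩ ⟨_, y, rfl⟩
      rw [Subsingleton.elim x y]
    exact Dp.of_subsingleton
  | succ n ih =>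
    intro j hj hjc
    cases j with
    | zero =>
      have h6 : Dp R 6 (L 0) := Dp.free hd
      have hker : LinearMap.ker (dL 0) = ⊥ := by
        rw [Submodule.eq_bot_iff]
        exact fun x hx => hex0 x hx
      have e : L 0 ≃ₗ[R] LinearMap.range (dL 0) :=
        LinearEquiv.ofInjective (dL 0) (LinearMap.ker_eq_bot.1 hker)
      have : Dp R 6 (LinearMap.range (dL 0)) := by
        intro T _ _ _ hT i hi
        have h1 := h6 T hT i hi
        have h2 : Dp R 6 PUnit.{u + 1} := Dp.of_subsingleton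
        exact EV.snd (f := (0 : PUnit.{u + 1} →ₗ[R] L 0)) (g := e.toLinearMap)
          (fun x y _ => Subsingleton.elim _ _)
          (fun y => ⟨fun hy => ⟨PUnit.unit, by
            rw [LinearMap.zero_apply]
            exact (e.map_eq_zero_iff.1 hy).symm⟩, by
            rintro ⟨_, rfl⟩
            rw [LinearMap.zero_apply, map_zero]⟩) e.surjective h1 EV.zero_of'
      exact this.mono (by omega)
    | succ j =>
      have h1 := ih j (by omega) (by omega)
      have h6 : Dp R 6 (L (j + 1)) := Dp.free hd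
      by_cases hn : 7 ≤ n + 1
      · intro T _ _ _ hT i hi
        omega
      refine Dp.coker (f := (LinearMap.range (dL j)).subtype)
        (g := (dL (j + 1)).rangeRestrict) Subtype.val_injective ?_
        (LinearMap.surjective_rangeRestrict _) (h1.mono (by omega)) (h6.mono (by omega))
      intro y
      constructor
      · intro hy
        obtain ⟨x, hx⟩ := hex j hjc y (congrArg Subtype.val hy)
        exact ⟨⟨y, x, hx⟩, rfl⟩
      · rintro ⟨⟨_, x, rfl⟩, rfl⟩
        exact Subtype.ext (hdd j x)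

theorem dp_coker (hd : Depth6 R) {c s : ℕ} (hs : s ≤ 6)
    (h0 : ∀ i, i + s < c + 1 → Subsingleton (L i))
    (hex0 : ∀ x, dL 0 x = 0 → x = 0)
    (hex : ∀ i, i + 1 < c + 1 → ∀ z, dL (i + 1) z = 0 → ∃ y, dL i y = z)
    (hdd : ∀ i x, dL (i + 1) (dL i x) = 0) :
    Dp R (6 - s) (L (c + 1) ⧸ LinearMap.range (dL c)) := by
  have h1 := dp_range hd h0 hex0 hex hdd s c (by omega) (by omega)
  have h6 : Dp R 6 (L (c + 1)) := Dp.free hd
  exact Dp.coker (f := (LinearMap.range (dL c)).subtype) (g := (LinearMap.range (dL c)).mkQ)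
    Subtype.val_injective (LinearMap.exact_iff.2 (by rw [Submodule.ker_mkQ, Submodule.range_subtype]))
    (Submodule.mkQ_surjective _) (h1.mono (by omega)) (h6.mono (by omega))

end target

/-! ### The lifting lemma -/

/-- lifting through a linear map -/
theorem proj_lift {P X Y : Type u} [AddCommGroup P] [Module R P] [AddCommGroup X] [Module R X]
    [AddCommGroup Y] [Module R Y] [Module.Projective R P] (f : X →ₗ[R] Y) (g : P →ₗ[R] Y)
    (h : ∀ p, ∃ x, f x = g p) : ∃ l : P →ₗ[R] X, ∀ p, f (l p) = g p := by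
  obtain ⟨l, hl⟩ := Module.projective_lifting_property f.rangeRestrict
    (g.codRestrict (LinearMap.range f) (fun p => h p)) (LinearMap.surjective_rangeRestrict _)
  refine ⟨l, fun p => ?_⟩
  have := LinearMap.congr_fun hl p
  exact congrArg Subtype.val this

section main

variable [IsNoetherianRing R] {K L : ℕ → Type u} [∀ i, AddCommGroup (K i)]
  [∀ i, Module R (K i)] [∀ i, Module.Finite R (K i)] [∀ i, Module.Projective R (K i)]
  [∀ i, AddCommGroup (L i)] [∀ i, Module R (L i)]
  [∀ i, Module.Finite R (L i)] [∀ i, Module.Free R (L i)]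

/-- The lifting lemma. -/
theorem lift (hd : Depth6 R) (dK : ∀ i, K i →ₗ[R] K (i + 1)) (dL : ∀ i, L i →ₗ[R] L (i + 1))
    (hdK : ∀ i x, dK (i + 1) (dK i x) = 0) (hdL : ∀ i x, dL (i + 1) (dL i x) = 0) (c s t : ℕ)
    (hK0 : ∀ i, c + 1 + t < i → Subsingleton (K i)) (hT : ∀ i, c + 1 ≤ i → TorsAt dK i)
    (hL0 : ∀ i, i + s < c + 1 → Subsingleton (L i)) (hex0 : ∀ x, dL 0 x = 0 → x = 0)
    (hex : ∀ i, i + 1 < c + 1 → ∀ z, dL (i + 1) z = 0 → ∃ y, dL i y = z) (hst : s + t ≤ 4)
    (φ : LinearMap.ker (dK (c + 1)) →ₗ[R] (L (c + 1) ⧸ LinearMap.range (dL c)))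
    (hφ1 : ∀ y : K c, φ ⟨dK c y, hdK c y⟩ = 0)
    (hφ2 : ∀ z (w : L (c + 1)), φ z = Submodule.Quotient.mk w → dL (c + 1) w = 0) :
    ∃ F : ∀ i, K i →ₗ[R] L i, (∀ i x, F (i + 1) (dK i x) = dL i (F i x)) ∧
      ∀ z : LinearMap.ker (dK (c + 1)), φ z = Submodule.Quotient.mk (F (c + 1) z) := by
  classical
  have hQ := dp_coker hd (by omega) hL0 hex0 hex hdL
  obtain ⟨ψ, hψ⟩ := extend_ker hdK hQ hK0 hT (by omega) φ
  obtain ⟨F0, hF0⟩ := proj_lift (LinearMap.range (dL c)).mkQ ψ
    (fun p => Submodule.mkQ_surjective _ (ψ p))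
  have hF0' : ∀ z : LinearMap.ker (dK (c + 1)), φ z = Submodule.Quotient.mk (F0 z) := by
    intro z
    rw [← hψ, ← hF0]
    rfl
  -- the positive part
  have hpos : ∀ n : ℕ, ∃ F : ∀ i, K i →ₗ[R] L i, F (c + 1) = F0 ∧
      (∀ i, c + 1 ≤ i → i < c + 1 + n → ∀ x, F (i + 1) (dK i x) = dL i (F i x)) ∧
      (∀ x, dK (c + 1 + n) x = 0 → dL (c + 1 + n) (F (c + 1 + n) x) = 0) := by
    intro n
    induction n with
    | zero =>
      refine ⟨Function.update (fun i => (0 : K i →ₗ[R] L i)) (c + 1) F0,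
        Function.update_self _ _ _, fun i h1 h2 => by omega, ?_⟩
      intro x hx
      show dL (c + 1) (Function.update (fun i => (0 : K i →ₗ[R] L i)) (c + 1) F0 (c + 1) x) = 0
      rw [Function.update_self]
      exact hφ2 ⟨x, hx⟩ (F0 x) (hF0' ⟨x, hx⟩)
    | succ n ih =>
      obtain ⟨F, h1, h2, h3⟩ := ih
      obtain ⟨f, hf⟩ := extend_next hdK (Dp.free (Q := L (c + 1 + n + 1)) hd) hK0 hT
        (i := c + 1 + n) (by omega) (e := 4) (by omega) (by omega)
        ((dL (c + 1 + n)).comp (F (c + 1 + n))) h3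
      refine ⟨Function.update F (c + 1 + n + 1) f, ?_, ?_, ?_⟩
      · rw [Function.update_of_ne (by omega), h1]
      · intro i hi1 hi2 x
        by_cases hin : i = c + 1 + n
        · subst hin
          rw [Function.update_self, Function.update_of_ne (by omega)]
          exact hf x
        · rw [Function.update_of_ne (by omega), Function.update_of_ne (by omega)]
          exact h2 i hi1 (by omega) x
      · intro x hx
        show dL (c + 1 + n + 1) (Function.update F (c + 1 + n + 1) f (c + 1 + n + 1) x) = 0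
        rw [Function.update_self]
        refine zero_on_cycles hdK (Dp.free (Q := L (c + 1 + n + 1 + 1)) hd)
          (hT (c + 1 + n) (by omega)) ((dL (c + 1 + n + 1)).comp f) ?_ x hx
        intro y
        show dL (c + 1 + n + 1) (f (dK (c + 1 + n) y)) = 0
        rw [hf]
        exact hdL _ _
  -- the negative part
  obtain ⟨Fp, hp1, hp2, _⟩ := hpos (t + 1)
  have hneg : ∀ n : ℕ, n ≤ c + 1 → ∃ F : ∀ i, K i →ₗ[R] L i, F (c + 1) = F0 ∧
      (∀ i, c + 1 ≤ i + n → i < c + 1 + (t + 1) → ∀ x, F (i + 1) (dK i x) = dL i (F i x)) := by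
    intro n
    induction n with
    | zero =>
      intro _
      exact ⟨Fp, hp1, fun i h1 h2 => hp2 i (by omega) h2⟩
    | succ n ih =>
      intro hn
      obtain ⟨F, h1, h2⟩ := ih (by omega)
      obtain ⟨j, hj⟩ : ∃ j, c + 1 = j + n + 1 := ⟨c - n, by omega⟩
      -- the next spot is `j`
      have hlift : ∀ p : K j, ∃ x, dL j x = F (j + 1) (dK j p) := by
        intro p
        by_cases hn0 : n = 0
        · have hjc : j = c := by omega
          subst hjc
          have h4 := hF0' ⟨dK j p, hdK j p⟩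
          rw [hφ1, eq_comm, Submodule.Quotient.mk_eq_zero] at h4
          obtain ⟨y, hy⟩ := h4
          exact ⟨y, by rw [hy, h1]⟩
        · refine hex j (by omega) _ ?_
          rw [← h2 (j + 1) (by omega) (by omega), hdK, map_zero]
      obtain ⟨f, hf⟩ := proj_lift (dL j) ((F (j + 1)).comp (dK j)) hlift
      refine ⟨Function.update F j f, ?_, ?_⟩
      · rw [Function.update_of_ne (by omega), h1]
      · intro i hi1 hi2 x
        by_cases hij : i = j
        · subst hij
          rw [Function.update_of_ne (by omega), Function.update_self]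
          exact (hf x).symm
        · rw [Function.update_of_ne (by omega), Function.update_of_ne (by omega)]
          exact h2 i (by omega) hi2 x
  obtain ⟨F, h1, h2⟩ := hneg (c + 1) le_rfl
  refine ⟨F, ?_, fun z => by rw [h1]; exact hF0' z⟩
  intro i x
  by_cases hi : i < c + 1 + (t + 1)
  · exact h2 i (by omega) hi x
  · have : Subsingleton (K i) := hK0 i (by omega)
    rw [Subsingleton.elim x 0, map_zero, map_zero, map_zero, map_zero]

/-- A chain map which is zero on `H ^ 0` is null-homotopic. -/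
theorem null (hd : Depth6 R) (dK : ∀ i, K i →ₗ[R] K (i + 1)) (dL : ∀ i, L i →ₗ[R] L (i + 1))
    (hdK : ∀ i x, dK (i + 1) (dK i x) = 0) (hdL : ∀ i x, dL (i + 1) (dL i x) = 0) (c s t : ℕ)
    (hK0 : ∀ i, c + 1 + t < i → Subsingleton (K i)) (hT : ∀ i, c + 1 ≤ i → TorsAt dK i)
    (hL0 : ∀ i, i + s < c + 1 → Subsingleton (L i)) (hex0 : ∀ x, dL 0 x = 0 → x = 0)
    (hex : ∀ i, i + 1 < c + 1 → ∀ z, dL (i + 1) z = 0 → ∃ y, dL i y = z) (hst : s + t ≤ 5)
    (F : ∀ i, K i →ₗ[R] L i) (hF : ∀ i x, F (i + 1) (dK i x) = dL i (F i x))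
    (hF0 : ∀ z, dK (c + 1) z = 0 → ∃ y, dL c y = F (c + 1) z) :
    ∃ h : ∀ i, K (i + 1) →ₗ[R] L i, (∀ x, F 0 x = h 0 (dK 0 x)) ∧
      ∀ i x, F (i + 1) x = dL i (h i x) + h (i + 1) (dK (i + 1) x) := by
  classical
  have hQ := dp_coker hd (by omega) hL0 hex0 hex hdL
  have hvan : ∀ x, dK (c + 1) x = 0 → ((LinearMap.range (dL c)).mkQ.comp (F (c + 1))) x = 0 := by
    intro x hx
    obtain ⟨y, hy⟩ := hF0 x hx
    rw [LinearMap.comp_apply, Submodule.mkQ_apply, Submodule.Quotient.mk_eq_zero]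
    exact ⟨y, hy⟩
  obtain ⟨ψ, hψ⟩ : ∃ ψ : K (c + 1 + 1) →ₗ[R] (L (c + 1) ⧸ LinearMap.range (dL c)),
      ∀ x, ψ (dK (c + 1) x) = ((LinearMap.range (dL c)).mkQ.comp (F (c + 1))) x := by
    by_cases ht0 : t = 0
    · have : Subsingleton (K (c + 1 + 1)) := hK0 _ (by omega)
      refine ⟨0, fun x => ?_⟩
      rw [hvan x (Subsingleton.elim _ _), LinearMap.zero_apply]
    · have h1 : c + 1 + t ≤ c + 1 + 1 + (t - 1) := by omega
      have h2 : 1 + (t - 1) < 6 - s := by omega
      exact extend_next hdK hQ hK0 hT le_rfl h1 h2 _ hvan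
  obtain ⟨h1, hh1⟩ := proj_lift (LinearMap.range (dL c)).mkQ ψ
    (fun p => Submodule.mkQ_surjective _ (ψ p))
  obtain ⟨h0, hh0⟩ := proj_lift (dL c) (F (c + 1) - h1.comp (dK (c + 1))) (by
    intro x
    have h3 := hh1 (dK (c + 1) x)
    rw [hψ] at h3
    have h4 : Submodule.Quotient.mk (F (c + 1) x - h1 (dK (c + 1) x)) =
        (0 : L (c + 1) ⧸ LinearMap.range (dL c)) := by
      rw [Submodule.Quotient.mk_sub, sub_eq_zero]
      exact h3.symm
    rw [Submodule.Quotient.mk_eq_zero] at h4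
    exact h4)
  -- upwards
  have hpos : ∀ n : ℕ, ∃ h : ∀ i, K (i + 1) →ₗ[R] L i,
      (∀ i, c ≤ i → i < c + n + 1 → ∀ x, F (i + 1) x = dL i (h i x) + h (i + 1) (dK (i + 1) x)) := by
    intro n
    induction n with
    | zero =>
      refine ⟨Function.update (Function.update (fun i => (0 : K (i + 1) →ₗ[R] L i)) c h0)
        (c + 1) h1, ?_⟩
      intro i hi1 hi2 x
      have : i = c := by omega
      subst this
      rw [Function.update_self, Function.update_of_ne (by omega), Function.update_self]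
      have h3 := hh0 x
      rw [h3, LinearMap.sub_apply, LinearMap.comp_apply, sub_add_cancel]
    | succ n ih =>
      obtain ⟨h, hh⟩ := ih
      have hg : ∀ x, (F (c + n + 1 + 1) - (dL (c + n + 1)).comp (h (c + n + 1)))
          (dK (c + n + 1) x) = 0 := by
        intro x
        rw [LinearMap.sub_apply, LinearMap.comp_apply, hF, hh (c + n) (by omega) (by omega) x,
          map_add, hdL, zero_add, sub_self]
      obtain ⟨f, hf⟩ := extend_next hdK (Dp.free (Q := L (c + n + 1 + 1)) hd) hK0 hT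
        (i := c + n + 1 + 1) (by omega) (e := 4) (by omega) (by omega)
        (F (c + n + 1 + 1) - (dL (c + n + 1)).comp (h (c + n + 1)))
        (fun z hz => zero_on_cycles hdK (Dp.free (Q := L (c + n + 1 + 1)) hd)
          (hT (c + n + 1) (by omega)) _ hg z hz)
      refine ⟨Function.update h (c + n + 1 + 1) f, ?_⟩
      intro i hi1 hi2 x
      by_cases hin : i = c + n + 1
      · subst hin
        rw [Function.update_of_ne (by omega), Function.update_self, hf, LinearMap.sub_apply,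
          LinearMap.comp_apply]
        abel
      · rw [Function.update_of_ne (by omega), Function.update_of_ne (by omega)]
        exact hh i hi1 (by omega) x
  -- downwards
  obtain ⟨hp, hhp⟩ := hpos (t + 1)
  have hneg : ∀ n : ℕ, n ≤ c → ∃ h : ∀ i, K (i + 1) →ₗ[R] L i,
      (∀ i, c ≤ i + n → i < c + (t + 1) + 1 → ∀ x,
        F (i + 1) x = dL i (h i x) + h (i + 1) (dK (i + 1) x)) := by
    intro n
    induction n with
    | zero =>
      intro _
      exact ⟨hp, fun i h1 h2 => hhp i (by omega) h2⟩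
    | succ n ih =>
      intro hn
      obtain ⟨h, hh⟩ := ih (by omega)
      obtain ⟨j, hj⟩ : ∃ j, c = j + n + 1 := ⟨c - n - 1, by omega⟩
      obtain ⟨f, hf⟩ := proj_lift (dL j) (F (j + 1) - (h (j + 1)).comp (dK (j + 1))) (by
        intro p
        refine hex j (by omega) _ ?_
        rw [LinearMap.sub_apply, LinearMap.comp_apply, map_sub, ← hF,
          hh (j + 1) (by omega) (by omega) (dK (j + 1) p), hdK, map_zero, add_zero, sub_self])
      refine ⟨Function.update h j f, ?_⟩
      intro i hi1 hi2 x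
      by_cases hij : i = j
      · subst hij
        rw [Function.update_self, Function.update_of_ne (by omega), hf, LinearMap.sub_apply,
          LinearMap.comp_apply, sub_add_cancel]
      · rw [Function.update_of_ne (by omega), Function.update_of_ne (by omega)]
        exact hh i (by omega) hi2 x
  obtain ⟨h, hh⟩ := hneg c le_rfl
  have hall : ∀ i x, F (i + 1) x = dL i (h i x) + h (i + 1) (dK (i + 1) x) := by
    intro i x
    by_cases hi : i < c + (t + 1) + 1
    · exact hh i (by omega) hi x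
    · have : Subsingleton (K (i + 1)) := hK0 _ (by omega)
      rw [Subsingleton.elim x 0, map_zero, map_zero, map_zero, map_zero, map_zero, add_zero]
  refine ⟨h, ?_, hall⟩
  intro x
  have h3 : dL 0 (F 0 x - h 0 (dK 0 x)) = 0 := by
    rw [map_sub, ← hF, hall 0 (dK 0 x), hdK, map_zero, add_zero, sub_self]
  exact sub_eq_zero.1 (hex0 _ h3)

end main

end Pool.Agent.Licci.XE
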