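import Pool.Agent.Work.MP_a98e4e_ag.Grade
import Pool.Agent.Work.MP_a98e4e_ag.Defs
import Pool.Agent.Work.MP_a98e4e_ag.RegPi
import Mathlib.RingTheory.Depth.Rees

/-!
# Reduction of the dimension

Over a regular local ring, a finite module without socle has a regular element in `m \ m ^ 2`; a free
resolution of length `c` stays one modulo such an element, if `c` is less than the dimension. So an
ideal of height `c` with a resolution of length `c` can be reduced to dimension `c`, together with
the resolution (`exists_reduction`).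
-/

namespace LicciX

open IsLocalRing RingTheory.Sequence Pointwise LicciCodimFour CategoryTheory Abelian

universe u v


/-- a regular element in `m \ m ^ 2` for a module without socle -/
theorem exists_regular_param {R : Type u} [CommRing R] [IsRegularLocalRing R]
    (h : 0 < (maximalIdeal R).spanFinrank) {N : Type v} [AddCommGroup N] [Module R N] [Module.Finite R N]
    (hN : ∀ z : N, (∀ r ∈ maximalIdeal R, r • z = 0) → z = 0) :
    ∃ x ∈ maximalIdeal R, x ∉ maximalIdeal R ^ 2 ∧ IsSMulRegular N x := by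
  classical
  by_contra hcon
  push Not at hcon
  have hfin : (associatedPrimes R N).Finite := associatedPrimes.finite R N
  let s : Finset (Ideal R) := insert (maximalIdeal R ^ 2) hfin.toFinset
  have hsub : (maximalIdeal R : Set R) ⊆ ⋃ i ∈ (↑s : Set (Ideal R)), ((id i : Ideal R) : Set R) := by
    intro x hx
    simp only [Set.mem_iUnion]
    by_cases h2 : x ∈ maximalIdeal R ^ 2
    · exact ⟨maximalIdeal R ^ 2, by simp [s], h2⟩
    · have h3 := hcon x hx h2
      have h4 : ∃ z : N, z ≠ 0 ∧ x • z = 0 := by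
        by_contra h5
        push Not at h5
        apply h3
        intro a b hab
        by_contra h6
        exact h5 (a - b) (sub_ne_zero.2 h6) (by rw [smul_sub]; exact sub_eq_zero.2 hab)
      have h5 : x ∈ ⋃ p ∈ associatedPrimes R N, (p : Set R) := by
        rw [biUnion_associatedPrimes_eq_zero_divisors]
        exact h4
      simp only [Set.mem_iUnion] at h5
      obtain ⟨P, hP, hxP⟩ := h5
      exact ⟨P, by simp [s, hP], hxP⟩
  obtain ⟨i, hi, hle⟩ := (Ideal.subset_union_prime (f := id) (maximalIdeal R ^ 2)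
    (maximalIdeal R ^ 2) (fun i hi h1 _ => by
      rw [Finset.mem_insert] at hi
      rcases hi with hi | hi
      · exact absurd hi h1
      · have : i ∈ associatedPrimes R N := by simpa using hi
        exact this.1)).1 hsub
  simp only [id] at hle
  rw [Finset.mem_insert] at hi
  rcases hi with hi | hi
  · -- `m ≤ m ^ 2`
    rw [hi] at hle
    have h1 : maximalIdeal R ≤ ⊥ := by
      refine Submodule.le_of_le_smul_of_le_jacobson_bot (I := maximalIdeal R)
        (IsNoetherian.noetherian (maximalIdeal R)) (IsLocalRing.maximalIdeal_le_jacobson ⊥) ?_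
      rw [bot_sup_eq, smul_eq_mul, ← pow_two]
      exact hle
    rw [le_bot_iff] at h1
    have h2 := (Submodule.spanFinrank_eq_zero_iff_eq_bot
      (IsNoetherian.noetherian (maximalIdeal R))).2 h1
    omega
  · -- `m` an associated prime
    have hi' : i ∈ associatedPrimes R N := by simpa using hi
    obtain ⟨hprime, z, hz⟩ := (isAssociatedPrime_iff).1 ((AssociatedPrimes.mem_iff).1 hi')
    have hz0 : z = 0 := by
      apply hN
      intro r hr
      have : r ∈ i := hle hr
      rw [hz, Submodule.mem_colon_singleton] at this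
      simpa using this
    apply hprime.ne_top
    rw [hz, Ideal.eq_top_iff_one, Submodule.mem_colon_singleton, hz0, smul_zero]
    exact Submodule.zero_mem _



section base

variable {R S : Type u} [CommRing R] [CommRing S]

/-- base change of a linear map between finite free modules -/
noncomputable def mapLin (φ : R →+* S) {m n : ℕ} (f : (Fin n → R) →ₗ[R] (Fin m → R)) :
    (Fin n → S) →ₗ[S] (Fin m → S) :=
  ((LinearMap.toMatrix' f).map φ).mulVecLin

/-- base change of a linear form -/
noncomputable def mapForm (φ : R →+* S) {n : ℕ} (f : (Fin n → R) →ₗ[R] R) : (Fin n → S) →ₗ[S] S :=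
  Fintype.linearCombination S fun j => φ (f (Pi.single j 1))

theorem mapLin_apply (φ : R →+* S) {m n : ℕ} (f : (Fin n → R) →ₗ[R] (Fin m → R)) (v : Fin n → R) :
    mapLin φ f (fun j => φ (v j)) = fun i => φ (f v i) := by
  funext i
  have h : f v i = ∑ j, LinearMap.toMatrix' f i j * v j := by
    conv_lhs => rw [← LinearMap.toMatrix'_mulVec f v]
    rfl
  rw [h, map_sum]
  simp only [mapLin, Matrix.mulVecLin_apply, Matrix.mulVec, dotProduct, Matrix.map_apply, map_mul]

theorem mapForm_apply (φ : R →+* S) {n : ℕ} (f : (Fin n → R) →ₗ[R] R) (v : Fin n → R) :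
    mapForm φ f (fun j => φ (v j)) = φ (f v) := by
  have h : f v = ∑ j, v j * f (Pi.single j 1) := by
    conv_lhs => rw [← Finset.univ_sum_single v, map_sum]
    refine Finset.sum_congr rfl fun j _ => ?_
    have : (Pi.single j (v j) : Fin n → R) = v j • Pi.single j 1 := by
      rw [← Pi.single_smul, smul_eq_mul, mul_one]
    rw [this, map_smul, smul_eq_mul]
  rw [h, map_sum]
  simp [mapForm, Fintype.linearCombination_apply]

/-- exactness is preserved modulo a regular element `x`, provided `x` is regular on the cokernel of the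
second map -/
theorem exact_mapLin {φ : R →+* S} (hφ : Function.Surjective φ) {x : R}
    (hker : ∀ r, φ r = 0 ↔ ∃ t, r = x * t) {a b c : ℕ} {f : (Fin a → R) →ₗ[R] (Fin b → R)}
    {g : (Fin b → R) →ₗ[R] (Fin c → R)} (hfg : Function.Exact f g)
    (hw : ∀ w, x • w ∈ LinearMap.range g → w ∈ LinearMap.range g) :
    Function.Exact (mapLin φ f) (mapLin φ g) := by
  have hlift : ∀ {n : ℕ} (z : Fin n → S), ∃ z' : Fin n → R, (fun j => φ (z' j)) = z := fun z =>
    ⟨fun j => (hφ (z j)).choose, funext fun j => (hφ (z j)).choose_spec⟩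
  intro z
  constructor
  · intro hz
    obtain ⟨z, rfl⟩ := hlift z
    rw [mapLin_apply] at hz
    have h1 : ∀ i, ∃ t, g z i = x * t := fun i => (hker _).1 (congrFun hz i)
    choose w hw' using h1
    have h2 : g z = x • w := funext fun i => by rw [hw' i]; rfl
    obtain ⟨v, hv⟩ := hw w ⟨z, h2⟩
    obtain ⟨u, hu⟩ := (hfg (z - x • v)).1 (by rw [map_sub, map_smul, hv, h2, sub_self])
    refine ⟨fun j => φ (u j), ?_⟩
    rw [mapLin_apply]
    funext i
    rw [hu]
    simp only [Pi.sub_apply, Pi.smul_apply, smul_eq_mul, map_sub]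
    rw [(hker (x * v i)).2 ⟨v i, rfl⟩, sub_zero]
  · rintro ⟨u, rfl⟩
    obtain ⟨u, rfl⟩ := hlift u
    rw [mapLin_apply, mapLin_apply]
    funext i
    rw [hfg.apply_apply_eq_zero]
    simp

theorem exact_mapForm {φ : R →+* S} (hφ : Function.Surjective φ) {x : R}
    (hker : ∀ r, φ r = 0 ↔ ∃ t, r = x * t) {a b : ℕ} {f : (Fin a → R) →ₗ[R] (Fin b → R)}
    {g : (Fin b → R) →ₗ[R] R} (hfg : Function.Exact f g)
    (hw : ∀ w, x * w ∈ LinearMap.range g → w ∈ LinearMap.range g) :
    Function.Exact (mapLin φ f) (mapForm φ g) := by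
  have hlift : ∀ {n : ℕ} (z : Fin n → S), ∃ z' : Fin n → R, (fun j => φ (z' j)) = z := fun z =>
    ⟨fun j => (hφ (z j)).choose, funext fun j => (hφ (z j)).choose_spec⟩
  intro z
  constructor
  · intro hz
    obtain ⟨z, rfl⟩ := hlift z
    rw [mapForm_apply] at hz
    obtain ⟨w, hw'⟩ := (hker _).1 hz
    obtain ⟨v, hv⟩ := hw w ⟨z, hw'⟩
    obtain ⟨u, hu⟩ := (hfg (z - x • v)).1 (by rw [map_sub, map_smul, hv, hw', smul_eq_mul, sub_self])
    refine ⟨fun j => φ (u j), ?_⟩
    rw [mapLin_apply]
    funext i
    rw [hu]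
    simp only [Pi.sub_apply, Pi.smul_apply, smul_eq_mul, map_sub]
    rw [(hker (x * v i)).2 ⟨v i, rfl⟩, sub_zero]
  · rintro ⟨u, rfl⟩
    obtain ⟨u, rfl⟩ := hlift u
    rw [mapLin_apply, mapForm_apply, hfg.apply_apply_eq_zero, map_zero]

/-- **the resolution modulo a regular element** -/
theorem exists_quotient_resolution [IsLocalRing R] [IsLocalRing S] {φ : R →+* S}
    (hφ : Function.Surjective φ) {x : R} (hker : ∀ r, φ r = 0 ↔ ∃ t, r = x * t)
    (hm : ∀ r ∈ maximalIdeal R, φ r ∈ maximalIdeal S) (hx : IsSMulRegular R x) {I : Ideal R}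
    (hxI : ∀ w, x * w ∈ I → w ∈ I) {b : ℕ → ℕ} (F : MinimalFreeResolution I b) :
    ∃ F' : MinimalFreeResolution (I.map φ) b, (∀ v, F'.aug (fun j => φ (v j)) = φ (F.aug v)) ∧
      ∀ i v, F'.d i (fun j => φ (v j)) = fun j => φ (F.d i v j) := by
  have hlift : ∀ {n : ℕ} (z : Fin n → S), ∃ z' : Fin n → R, (fun j => φ (z' j)) = z := fun z =>
    ⟨fun j => (hφ (z j)).choose, funext fun j => (hφ (z j)).choose_spec⟩
  have hreg : ∀ {n : ℕ} (w : Fin n → R), x • w = 0 → w = 0 := fun w hw => by
    funext i
    have h1 : x * w i = 0 := congrFun hw i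
    apply hx
    show x * w i = x * 0
    rw [h1, mul_zero]
  refine ⟨⟨mapForm φ F.aug, fun i => mapLin φ (F.d i), ?_, ?_, ?_, ?_, ?_⟩, mapForm_apply φ F.aug,
    fun i => mapLin_apply φ (F.d i)⟩
  · -- range
    apply le_antisymm
    · rintro _ ⟨v, rfl⟩
      obtain ⟨v, rfl⟩ := hlift v
      rw [mapForm_apply]
      exact Ideal.mem_map_of_mem φ (F.range_aug.le ⟨v, rfl⟩)
    · rw [Ideal.map_le_iff_le_comap]
      intro r hr
      rw [← F.range_aug] at hr
      obtain ⟨v, rfl⟩ := hr
      exact ⟨_, mapForm_apply φ F.aug v⟩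
  · exact exact_mapForm hφ hker F.exact_aug (by rw [F.range_aug]; exact hxI)
  · intro i
    refine exact_mapLin hφ hker (F.exact_d i) ?_
    intro w hw
    have h1 : ∀ (w : Fin (b (i + 1)) → R), x • w ∈ LinearMap.range (F.d i) → w ∈ LinearMap.range (F.d i) := by
      intro w hw
      cases i with
      | zero =>
        obtain ⟨z, hz⟩ := hw
        have h2 : F.aug (x • w) = 0 := by rw [← hz]; exact F.exact_aug.apply_apply_eq_zero z
        rw [map_smul] at h2
        have h3 : F.aug w = 0 := hx (by show x • F.aug w = x • 0; rw [h2, smul_zero])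
        exact (F.exact_aug w).1 h3
      | succ i =>
        obtain ⟨z, hz⟩ := hw
        have h2 : F.d i (x • w) = 0 := by rw [← hz]; exact (F.exact_d i).apply_apply_eq_zero z
        rw [map_smul] at h2
        exact ((F.exact_d i) w).1 (hreg _ h2)
    exact h1 w hw
  · intro v
    obtain ⟨v, rfl⟩ := hlift v
    rw [mapForm_apply]
    exact hm _ (F.minimal_aug v)
  · intro i v j
    obtain ⟨v, rfl⟩ := hlift v
    rw [mapLin_apply]
    exact hm _ (F.minimal_d i v j)

end base



section depth

variable (R : Type u) [CommRing R] [IsLocalRing R]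

/-- depth at least `n`, by the vanishing of `Ext` from the residue field -/
def Dp (N : Type u) [AddCommGroup N] [Module R N] (n : ℕ) : Prop :=
  ∀ j < n, Subsingleton (Ext (ModuleCat.of R (ResidueField R)) (ModuleCat.of R N) j)

variable {R}

theorem Dp.mono {N : Type u} [AddCommGroup N] [Module R N] {n m : ℕ} (h : Dp R N n) (hmn : m ≤ n) :
    Dp R N m := fun j hj => h j (by omega)

theorem Dp.of_subsingleton {N : Type u} [AddCommGroup N] [Module R N] [Subsingleton N] (n : ℕ) :
    Dp R N n := by
  intro j _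
  refine ⟨fun a b => ?_⟩
  have h0 : 𝟙 (ModuleCat.of R N) = 0 := (ModuleCat.isZero_of_subsingleton _).eq_zero_of_src _
  have h : ∀ a : Ext (ModuleCat.of R (ResidueField R)) (ModuleCat.of R N) j, a = 0 := by
    intro a
    rw [← a.comp_mk₀_id, h0, Ext.mk₀_zero, Ext.comp_zero]
  rw [h a, h b]

theorem Dp.step {K F N : Type u} [AddCommGroup K] [Module R K] [AddCommGroup F] [Module R F]
    [AddCommGroup N] [Module R N] {i : K →ₗ[R] F} {p : F →ₗ[R] N} (hi : Function.Injective i)
    (hex : Function.Exact i p) (hp : Function.Surjective p) {n : ℕ} (hF : Dp R F n)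
    (hK : Dp R K (n + 1)) : Dp R N n := by
  intro j hj
  have hS : (ModuleCat.shortComplexOfCompEqZero i p hex.linearMap_comp_eq_zero).ShortExact :=
    ModuleCat.shortComplex_shortExact _ hex hi hp
  have zero1 := AddCommGrpCat.isZero_of_iff_subsingleton.mpr (hF j hj)
  have zero2 := AddCommGrpCat.isZero_of_iff_subsingleton.mpr (hK (j + 1) (by omega))
  exact AddCommGrpCat.subsingleton_of_isZero <| ShortComplex.Exact.isZero_of_both_zeros
    ((Ext.covariant_sequence_exact₃' (ModuleCat.of R (ResidueField R)) hS) j (j + 1) rfl)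
    (zero1.eq_zero_of_src _) (zero2.eq_zero_of_tgt _)

theorem Dp.socle {N : Type u} [AddCommGroup N] [Module R N] (h : Dp R N 1) (z : N)
    (hz : ∀ r ∈ maximalIdeal R, r • z = 0) : z = 0 := by
  have h1 : Subsingleton (ModuleCat.of R (ResidueField R) ⟶ ModuleCat.of R N) :=
    Ext.addEquiv₀.subsingleton_congr.mp (h 0 one_pos)
  have h2' : Subsingleton (ModuleCat.of R (ResidueField R) →ₗ[R] ModuleCat.of R N) :=
    ModuleCat.homAddEquiv.symm.subsingleton
  have h2 : Subsingleton ((R ⧸ maximalIdeal R) →ₗ[R] N) := h2'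
  let g : (R ⧸ maximalIdeal R) →ₗ[R] N := Submodule.liftQ (maximalIdeal R)
    (LinearMap.toSpanSingleton R N z) (by
      intro r hr
      rw [LinearMap.mem_ker, LinearMap.toSpanSingleton_apply]
      exact hz r hr)
  have h3 : g (Submodule.Quotient.mk 1) = z := by
    show (LinearMap.toSpanSingleton R N z) 1 = z
    simp
  have h4 : g = 0 := @Subsingleton.elim _ h2 g 0
  rw [← h3, h4]
  rfl

theorem Dp.free [IsNoetherianRing R] {rs : List R} (hrs : IsWeaklyRegular R rs)
    (hm : ∀ r ∈ rs, r ∈ maximalIdeal R) (m : ℕ) : Dp R (Fin m → R) rs.length := by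
  rcases Nat.eq_zero_or_pos m with h0 | h0
  · subst h0
    exact Dp.of_subsingleton _
  have : Nonempty (Fin m) := ⟨⟨0, h0⟩⟩
  have hnt : Nontrivial (Fin m → R) := Function.nontrivial
  have hlt : maximalIdeal R • (⊤ : Submodule R (Fin m → R)) < ⊤ := by
    rw [lt_top_iff_ne_top]
    intro h
    have := Submodule.eq_bot_of_le_smul_of_le_jacobson_bot (maximalIdeal R)
      (⊤ : Submodule R (Fin m → R)) Module.Finite.fg_top h.ge (IsLocalRing.maximalIdeal_le_jacobson ⊥)
    exact top_ne_bot this
  refine ModuleCat.subsingleton_ext_of_exists_isRegular (maximalIdeal R)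
    (ModuleCat.of R (ResidueField R)) ?_ (ModuleCat.of R (Fin m → R)) hlt rs hm ?_
  · rw [Module.support_eq_zeroLocus]
    apply PrimeSpectrum.zeroLocus_anti_mono_ideal
    intro r hr
    rw [Module.mem_annihilator]
    intro z
    obtain ⟨z, rfl⟩ := Submodule.Quotient.mk_surjective _ z
    show Submodule.Quotient.mk (r • z) = 0
    rw [Submodule.Quotient.mk_eq_zero]
    exact Ideal.mul_mem_right _ _ hr
  · exact IsRegular.of_isWeaklyRegular_of_mem_maximalIdeal (Fin m → R) hm
      (Pool.Agent.Licci.isWeaklyRegular_pi_ring hrs)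

/-- depth of the quotient by an ideal with a resolution of length `c` -/
theorem dp_of_resolution [IsNoetherianRing R] {rs : List R} (hrs : IsWeaklyRegular R rs)
    (hm : ∀ r ∈ rs, r ∈ maximalIdeal R) {I : Ideal R} {b : ℕ → ℕ} {c : ℕ}
    (hb : ∀ i, c < i → b i = 0) (F : MinimalFreeResolution I b) (hc : 1 ≤ c) (hcn : c ≤ rs.length) :
    Dp R (R ⧸ I) (rs.length - c) := by
  have hR : Dp R R rs.length := by
    have h1 := Dp.free hrs hm 1
    intro j hj
    have e : ModuleCat.of R (Fin 1 → R) ≅ ModuleCat.of R R :=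
      (LinearEquiv.funUnique (Fin 1) R R).toModuleIso
    have h2 := h1 j hj
    refine ⟨fun a b => ?_⟩
    have h3 : ∀ a : Ext (ModuleCat.of R (ResidueField R)) (ModuleCat.of R R) j, a = 0 := by
      intro a
      have h4 : (a.comp (Ext.mk₀ e.inv) (add_zero j)) = 0 := Subsingleton.elim _ _
      have h5 : (a.comp (Ext.mk₀ e.inv) (add_zero j)).comp (Ext.mk₀ e.hom) (add_zero j) = a := by
        rw [Ext.comp_assoc_of_third_deg_zero, Ext.mk₀_comp_mk₀, e.inv_hom_id, Ext.comp_mk₀_id]
      rw [← h5, h4, Ext.zero_comp]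
    rw [h3 a, h3 b]
  -- the images
  have key : ∀ m i, c ≤ i + 1 + m → Dp R (LinearMap.range (F.d i)) (rs.length + 1 - m) := by
    intro m
    induction m with
    | zero =>
      intro i hi
      have : Subsingleton (LinearMap.range (F.d i)) := by
        have hbi : b (i + 2) = 0 := hb _ (by omega)
        refine ⟨?_⟩
        rintro ⟨_, x, rfl⟩ ⟨_, y, rfl⟩
        have : x = y := by
          funext j
          exact absurd j.2 (by omega)
        rw [this]
      exact Dp.of_subsingleton _
    | succ m ih =>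
      intro i hi
      have h1 := ih (i + 1) (by omega)
      have hex : Function.Exact (LinearMap.range (F.d (i + 1))).subtype (F.d i).rangeRestrict := by
        intro z
        rw [Submodule.coe_subtype, Subtype.range_coe_subtype]
        constructor
        · intro hz
          have : F.d i z = 0 := congrArg Subtype.val hz
          exact (F.exact_d i z).1 this
        · intro hz
          apply Subtype.ext
          exact (F.exact_d i z).2 hz
      by_cases hmn : rs.length + 1 ≤ m + 1
      · intro j hj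
        omega
      · refine Dp.step (Submodule.subtype_injective _) hex (LinearMap.surjective_rangeRestrict _)
          ((Dp.free hrs hm _).mono (by omega)) (h1.mono (by omega))
  have h0 := key (c - 1) 0 (by omega)
  -- the kernel of the augmentation
  have h1 : Dp R I (rs.length + 1 - c) := by
    let p : (Fin (b 1) → R) →ₗ[R] I := F.aug.codRestrict I (fun v => F.range_aug.le ⟨v, rfl⟩)
    have hex : Function.Exact (LinearMap.range (F.d 0)).subtype p := by
      intro z
      rw [Submodule.coe_subtype, Subtype.range_coe_subtype]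
      constructor
      · intro hz
        have : F.aug z = 0 := congrArg Subtype.val hz
        exact (F.exact_aug z).1 this
      · intro hz
        apply Subtype.ext
        exact (F.exact_aug z).2 hz
    have hp : Function.Surjective p := by
      rintro ⟨r, hr⟩
      rw [← F.range_aug] at hr
      obtain ⟨v, hv⟩ := hr
      exact ⟨v, Subtype.ext hv⟩
    exact Dp.step (Submodule.subtype_injective _) hex hp ((Dp.free hrs hm _).mono (by omega))
      (h0.mono (by omega))
  have hex : Function.Exact (Submodule.subtype I) (Submodule.mkQ I) := by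
    intro z
    rw [Submodule.coe_subtype, Subtype.range_coe_subtype, Submodule.mkQ_apply,
      Submodule.Quotient.mk_eq_zero]
    exact Iff.rfl
  exact Dp.step (Submodule.subtype_injective _) hex (Submodule.mkQ_surjective I) (hR.mono (by omega))
    (h1.mono (by omega))

end depth



theorem dim_quotient_add {R : Type u} [CommRing R] [Nontrivial R] {I : Ideal R} {c : ℕ}
    (hc : (c : ℕ∞) ≤ I.height) : ringKrullDim (R ⧸ I) + c ≤ ringKrullDim R := by
  rw [ringKrullDim_quotient]
  rcases isEmpty_or_nonempty (PrimeSpectrum.zeroLocus (R := R) I) with he | hne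
  · rw [Order.krullDim_eq_bot]
    simp
  · have : Nonempty (PrimeSpectrum R) := inferInstance
    rw [Order.krullDim_eq_iSup_length, ringKrullDim,
      Order.krullDim_eq_iSup_height_add_coheight_of_nonempty]
    have h1 : ((⨆ l : LTSeries (PrimeSpectrum.zeroLocus (R := R) I), (l.length : ℕ∞)) : ℕ∞) + (c : ℕ∞) ≤
        ⨆ a : PrimeSpectrum R, Order.height a + Order.coheight a := by
      rw [ENat.iSup_add]
      apply iSup_le
      intro l
      refine le_trans ?_ (le_iSup _ l.head.1)
      rw [add_comm]
      apply add_le_add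
      · refine hc.trans ?_
        have h2 : I ≤ l.head.1.asIdeal := l.head.2
        refine (Ideal.height_mono h2).trans ?_
        rw [PrimeSpectrum.height_eq_orderHeight]
      · exact Order.length_le_coheight (p := l.map Subtype.val (fun _ _ => id)) le_rfl
    exact_mod_cast h1

theorem height_of_dim_quotient {R : Type u} [CommRing R] [IsLocalRing R] {I : Ideal R}
    (hI : I ≤ maximalIdeal R) (h : ringKrullDim (R ⧸ I) ≤ 0) : I.height = (maximalIdeal R).height := by
  apply le_antisymm (Ideal.height_mono hI)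
  rw [Ideal.height_eq_inf_minimalPrimes I]
  apply le_iInf
  intro P
  apply le_iInf
  intro hP
  have hprime : P.IsPrime := hP.1.1
  have hPm : P ≤ maximalIdeal R := le_maximalIdeal hprime.ne_top
  have hmm : P = maximalIdeal R := by
    by_contra hne
    have hlt : P < maximalIdeal R := lt_of_le_of_ne hPm hne
    rw [ringKrullDim_quotient] at h
    let p0 : PrimeSpectrum.zeroLocus (R := R) I := ⟨⟨P, hprime⟩, hP.1.2⟩
    let p1 : PrimeSpectrum.zeroLocus (R := R) I := ⟨⟨maximalIdeal R, inferInstance⟩, hI⟩
    have hlt' : p0 < p1 := hlt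
    have h1 := Order.LTSeries.length_le_krullDim ((RelSeries.singleton _ p1).cons p0 hlt')
    have h4 : ((1 : ℕ) : WithBot ℕ∞) ≤ 0 := h1.trans h
    exact absurd h4 (by norm_num)
  rw [hmm]


/-! ### the reduction -/

theorem exists_step {R : Type u} [CommRing R] [IsRegularLocalRing R] {c : ℕ} (hc1 : 1 ≤ c)
    (hcn : c < (maximalIdeal R).spanFinrank) {I : Ideal R} {b : ℕ → ℕ} (hb : ∀ i, c < i → b i = 0)
    (F : MinimalFreeResolution I b) (hdim : ringKrullDim (R ⧸ I) + c ≤ ringKrullDim R) :
    ∃ (S : Type u) (_ : CommRing S) (_ : IsRegularLocalRing S) (φ : R →+* S),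
      Function.Surjective φ ∧ (∀ r ∈ maximalIdeal R, φ r ∈ maximalIdeal S) ∧
      (maximalIdeal S).spanFinrank + 1 = (maximalIdeal R).spanFinrank ∧
      ringKrullDim (S ⧸ I.map φ) + c ≤ ringKrullDim S ∧
      ∃ F' : MinimalFreeResolution (I.map φ) b, (∀ v, F'.aug (fun j => φ (v j)) = φ (F.aug v)) ∧
        ∀ i v, F'.d i (fun j => φ (v j)) = fun j => φ (F.d i v j) := by
  have hdom : IsDomain R := isDomain_of_isRegularLocalRing R
  obtain ⟨rs, hlen, hgen, hrs⟩ := exists_regular_generators R
  have hlen' : rs.length = (maximalIdeal R).spanFinrank := by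
    rw [← IsRegularLocalRing.spanFinrank_maximalIdeal (R := R)] at hlen
    exact_mod_cast hlen
  have hmem : ∀ r ∈ rs, r ∈ maximalIdeal R := fun r hr => by
    rw [← hgen]
    exact Ideal.subset_span hr
  have hdp := dp_of_resolution hrs.toIsWeaklyRegular hmem hb F hc1 (by omega)
  have hsoc : ∀ z : R ⧸ I, (∀ r ∈ maximalIdeal R, r • z = 0) → z = 0 :=
    fun z hz => (hdp.mono (by omega)).socle z hz
  obtain ⟨x, hxm, hx2, hxreg⟩ := exists_regular_param (by omega) hsoc
  have hx0 : x ≠ 0 := by
    rintro rfl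
    exact hx2 (Ideal.zero_mem _)
  have hxR : IsSMulRegular R x := fun a b h => mul_left_cancel₀ hx0 h
  have hxI : ∀ w, x * w ∈ I → w ∈ I := by
    intro w hw
    rw [← Ideal.Quotient.eq_zero_iff_mem]
    apply hxreg
    show x • (Ideal.Quotient.mk I w) = x • 0
    rw [smul_zero]
    have : x • (Ideal.Quotient.mk I w) = Ideal.Quotient.mk I (x * w) := rfl
    rw [this, Ideal.Quotient.eq_zero_iff_mem]
    exact hw
  obtain ⟨hreg, hfin⟩ := isRegularLocalRing_quotient hxm hx2
  set φ : R →+* R ⧸ Ideal.span {x} := Ideal.Quotient.mk (Ideal.span {x}) with hφ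
  have hsurj : Function.Surjective φ := Ideal.Quotient.mk_surjective
  have hker : ∀ r, φ r = 0 ↔ ∃ t, r = x * t := by
    intro r
    rw [hφ, Ideal.Quotient.eq_zero_iff_mem, Ideal.mem_span_singleton]
    exact Iff.rfl
  have hloc : ∀ r ∈ maximalIdeal R, φ r ∈ maximalIdeal (R ⧸ Ideal.span {x}) := by
    intro r hr
    rw [← map_mk_maximalIdeal (x := x)]
    exact Ideal.mem_map_of_mem _ hr
  refine ⟨R ⧸ Ideal.span {x}, inferInstance, hreg, φ, hsurj, hloc, hfin, ?_,
    exists_quotient_resolution hsurj hker hloc hxR hxI F⟩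
  -- dimensions
  let g : R ⧸ I →+* (R ⧸ Ideal.span {x}) ⧸ I.map φ :=
    Ideal.quotientMap (I.map φ) φ Ideal.le_comap_map
  have hg : Function.Surjective g := Ideal.quotientMap_surjective hsurj
  have hx' : Ideal.Quotient.mk I x ∈ nonZeroDivisors (R ⧸ I) := by
    rw [mem_nonZeroDivisors_iff_right]
    intro z hz
    apply hxreg
    show x • z = x • 0
    rw [smul_zero, ← hz, mul_comm]
    rfl
  have hgx : g (Ideal.Quotient.mk I x) = 0 := by
    have : g (Ideal.Quotient.mk I x) = Ideal.Quotient.mk (I.map φ) (φ x) := rfl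
    rw [this, (hker x).2 ⟨1, (mul_one x).symm⟩, map_zero]
  have h1 := ringKrullDim_succ_le_of_surjective g hg hx' hgx
  rw [← IsRegularLocalRing.spanFinrank_maximalIdeal (R := R)] at hdim
  rw [← IsRegularLocalRing.spanFinrank_maximalIdeal (R := R ⧸ Ideal.span {x})]
  have h2 : ringKrullDim ((R ⧸ Ideal.span {x}) ⧸ I.map φ) + 1 + c ≤
      ((maximalIdeal R).spanFinrank : WithBot ℕ∞) := le_trans (by gcongr) hdim
  rw [← hfin] at h2
  generalize ringKrullDim ((R ⧸ Ideal.span {x}) ⧸ I.map φ) = A at h2
  induction A with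
  | bot => simp
  | coe A =>
    induction A with
    | top =>
      exfalso
      have h3 : ((⊤ : ℕ∞) : WithBot ℕ∞) + 1 + c = ((⊤ : ℕ∞) : WithBot ℕ∞) := rfl
      rw [h3] at h2
      have h4 := WithBot.coe_le_coe.1 h2
      exact absurd h4 (by simp)
    | coe a =>
      have h3 : a + 1 + c ≤ (maximalIdeal (R ⧸ Ideal.span {x})).spanFinrank + 1 := by exact_mod_cast h2
      have h4 : a + c ≤ (maximalIdeal (R ⧸ Ideal.span {x})).spanFinrank := by omega
      exact_mod_cast h4

/-- **Reduction of the dimension.** -/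
theorem exists_reduction_aux {c : ℕ} (hc1 : 1 ≤ c) {b : ℕ → ℕ} (hb : ∀ i, c < i → b i = 0) (k : ℕ) :
    ∀ {R : Type u} [CommRing R] [IsRegularLocalRing R], (maximalIdeal R).spanFinrank = c + k →
      ∀ {I : Ideal R} (F : MinimalFreeResolution I b), ringKrullDim (R ⧸ I) + c ≤ ringKrullDim R →
    ∃ (S : Type u) (_ : CommRing S) (_ : IsRegularLocalRing S) (φ : R →+* S),
      Function.Surjective φ ∧ (∀ r ∈ maximalIdeal R, φ r ∈ maximalIdeal S) ∧
      (maximalIdeal S).spanFinrank = c ∧ ringKrullDim (S ⧸ I.map φ) + c ≤ ringKrullDim S ∧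
      ∃ F' : MinimalFreeResolution (I.map φ) b, (∀ v, F'.aug (fun j => φ (v j)) = φ (F.aug v)) ∧
        ∀ i v, F'.d i (fun j => φ (v j)) = fun j => φ (F.d i v j) := by
  induction k with
  | zero =>
    intro R _ _ hR I F hdim
    have hI : I.map (RingHom.id R) = I := Ideal.map_id I
    refine ⟨R, inferInstance, inferInstance, RingHom.id R, Function.surjective_id, fun r hr => hr,
      by simpa using hR, by rw [hI]; exact hdim, ?_⟩
    rw [hI]
    exact ⟨F, fun v => rfl, fun i v => rfl⟩
  | succ k ih =>
    intro R _ _ hR I F hdim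
    obtain ⟨S, _, _, φ, h1, h2, h3, h4, F', h5, h6⟩ := exists_step hc1 (by omega) hb F hdim
    obtain ⟨T, _, _, ψ, g1, g2, g3, g4, F'', g5, g6⟩ := ih (R := S) (by omega) F' h4
    have hI : I.map (ψ.comp φ) = (I.map φ).map ψ := (Ideal.map_map φ ψ).symm
    refine ⟨T, inferInstance, inferInstance, ψ.comp φ, g1.comp h1, fun r hr => g2 _ (h2 r hr), g3,
      by rw [hI]; exact g4, ?_⟩
    rw [hI]
    refine ⟨F'', fun v => ?_, fun i v => ?_⟩
    · have e1 := g5 (fun j => φ (v j))
      rw [h5 v] at e1
      exact e1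
    · have e1 := g6 i (fun j => φ (v j))
      rw [h6 i v] at e1
      exact e1

/-- **Reduction of the dimension**: an ideal of height at least `c` with a minimal free resolution of
length `c` in a regular local ring is carried, with the resolution, to a regular local quotient of
dimension `c`. -/
theorem exists_reduction {R : Type u} [CommRing R] [IsRegularLocalRing R] {c : ℕ} (hc1 : 1 ≤ c)
    {I : Ideal R} (hI : (c : ℕ∞) ≤ I.height) {b : ℕ → ℕ} (hb : ∀ i, c < i → b i = 0)
    (F : MinimalFreeResolution I b) :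
    ∃ (S : Type u) (_ : CommRing S) (_ : IsRegularLocalRing S) (φ : R →+* S),
      Function.Surjective φ ∧ (∀ r ∈ maximalIdeal R, φ r ∈ maximalIdeal S) ∧
      (maximalIdeal S).spanFinrank = c ∧ ringKrullDim S = c ∧ (I.map φ).height = c ∧
      ∃ F' : MinimalFreeResolution (I.map φ) b, (∀ v, F'.aug (fun j => φ (v j)) = φ (F.aug v)) ∧
        ∀ i v, F'.d i (fun j => φ (v j)) = fun j => φ (F.d i v j) := by
  have hIm : I ≤ maximalIdeal R := by
    intro x hx
    rw [← F.range_aug] at hx
    obtain ⟨y, rfl⟩ := hx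
    exact F.minimal_aug y
  have h1 : (c : ℕ∞) ≤ (maximalIdeal R).spanFinrank := by
    have h2 := hI.trans (Ideal.height_mono hIm)
    have h3 := IsLocalRing.maximalIdeal_height_eq_ringKrullDim (R := R)
    rw [← IsRegularLocalRing.spanFinrank_maximalIdeal (R := R)] at h3
    have h4 : (maximalIdeal R).height = ((maximalIdeal R).spanFinrank : ℕ∞) := by exact_mod_cast h3
    rwa [h4] at h2
  have h1' : c ≤ (maximalIdeal R).spanFinrank := by exact_mod_cast h1
  obtain ⟨k, hk⟩ := Nat.exists_eq_add_of_le h1'
  obtain ⟨S, i1, i2, φ, g1, g2, g3, g4, F', g5, g6⟩ :=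
    exists_reduction_aux hc1 hb k hk F (dim_quotient_add hI)
  have hS : ringKrullDim S = c := by
    rw [← IsRegularLocalRing.spanFinrank_maximalIdeal (R := S), g3]
  refine ⟨S, i1, i2, φ, g1, g2, g3, hS, ?_, F', g5, g6⟩
  have hIm' : I.map φ ≤ maximalIdeal S := by
    rw [Ideal.map_le_iff_le_comap]
    exact fun r hr => g2 r (hIm hr)
  have h5 : ringKrullDim (S ⧸ I.map φ) ≤ 0 := by
    rw [hS] at g4
    generalize ringKrullDim (S ⧸ I.map φ) = A at g4
    induction A with
    | bot => simp
    | coe A =>
      induction A with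
      | top =>
        exfalso
        have h4 := WithBot.coe_le_coe.1 g4
        exact absurd h4 (by simp)
      | coe a =>
        have h3 : a + c ≤ c := by exact_mod_cast g4
        have h4 : a = 0 := by omega
        subst h4
        rfl
  rw [height_of_dim_quotient hIm' h5]
  have h6 := IsLocalRing.maximalIdeal_height_eq_ringKrullDim (R := S)
  rw [hS] at h6
  exact_mod_cast h6

end LicciX
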