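import Mathlib

/-!
# Torsion free cokernels in short complexes of deep modules

`0 → C 1 → C 2 → ... → C n` with `rs` (of length `n`) weakly regular on every `C i`, cohomology at
`C 1, ..., C (n-1)` killed by powers of the elements of `rs`: an element of `C n` with
`r ^ N • z` in the image for every `r ∈ rs` is in the image.
-/

namespace LicciX

open RingTheory.Sequence

universe u v

variable {R : Type u} [CommRing R]

theorem mk_eq_zero_iff' {M : Type v} [AddCommGroup M] [Module R M] (r : R) (x : M) :
    (Submodule.Quotient.mk x : QuotSMulTop r M) = 0 ↔ ∃ y, x = r • y := by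
  rw [Submodule.Quotient.mk_eq_zero, Submodule.mem_smul_pointwise_iff_exists]
  constructor
  · rintro ⟨y, _, hy⟩
    exact ⟨y, hy.symm⟩
  · rintro ⟨y, hy⟩
    exact ⟨y, trivial, hy.symm⟩

/-- The pointwise form: exactness (up to torsion) is needed only at the spots before. -/
theorem torsionFree_coker (rs : List R) :
    ∀ (C : ℕ → Type v) [∀ i, AddCommGroup (C i)] [∀ i, Module R (C i)]
      (d : ∀ i, C i →ₗ[R] C (i + 1)), (∀ i x, d (i + 1) (d i x) = 0) →
      Subsingleton (C 0) → (∀ i, IsWeaklyRegular (C i) rs) →
      (∀ r ∈ rs, ∀ i, i + 1 < rs.length → ∀ z, d (i + 1) z = 0 → ∃ n : ℕ, ∃ y, d i y = r ^ n • z) →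
      ∀ i, i + 1 = rs.length → ∀ z, (∀ r ∈ rs, ∃ n : ℕ, ∃ y, d i y = r ^ n • z) →
        ∃ y, d i y = z := by
  induction rs with
  | nil => intro C _ _ d _ _ _ _ i hi; simp at hi
  | cons r rs ih =>
    intro C _ _ d hdd h0 hreg hkill i hi z hz
    have hr : ∀ i, IsSMulRegular (C i) r := fun i => by
      have := hreg i
      rw [isWeaklyRegular_cons_iff] at this
      exact this.1
    let d' : ∀ i, QuotSMulTop r (C i) →ₗ[R] QuotSMulTop r (C (i + 1)) :=
      fun i => QuotSMulTop.map r (d i)
    have hd' : ∀ i (x : C i), d' i (Submodule.Quotient.mk x) = Submodule.Quotient.mk (d i x) := by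
      intro i x
      exact QuotSMulTop.map_apply_mk r (d i) x
    obtain ⟨n, y, hy⟩ := hz r List.mem_cons_self
    have step : ∀ n : ℕ, (∃ y, d i y = r ^ n • z) → ∃ y, d i y = z := by
      intro n
      induction n with
      | zero =>
        rintro ⟨y, hy⟩
        exact ⟨y, by rw [hy, pow_zero, one_smul]⟩
      | succ n ihn =>
        rintro ⟨y, hy⟩
        apply ihn
        have hy2 : d i y = r • (r ^ n • z) := by rw [hy, smul_smul, pow_succ, mul_comm]
        cases i with
        | zero =>
          refine ⟨0, ?_⟩
          have : y = 0 := Subsingleton.elim _ _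
          rw [this, map_zero] at hy2
          rw [map_zero]
          apply hr 1
          show r • (0 : C 1) = r • (r ^ n • z)
          rw [smul_zero, hy2]
        | succ j =>
          have hlen : rs.length = j + 1 := by simpa using hi.symm
          obtain ⟨y2, hy2'⟩ := ih (fun i => QuotSMulTop r (C i)) d' (by
              intro i x
              obtain ⟨x, rfl⟩ := Submodule.Quotient.mk_surjective _ x
              rw [hd', hd', hdd]
              rfl) (by
              constructor
              intro a b
              obtain ⟨a, rfl⟩ := Submodule.Quotient.mk_surjective _ a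
              obtain ⟨b, rfl⟩ := Submodule.Quotient.mk_surjective _ b
              rw [Subsingleton.elim a b]) (by
              intro i
              have := hreg i
              rw [isWeaklyRegular_cons_iff] at this
              exact this.2) (by
              intro s hs k hk w hw
              obtain ⟨w, rfl⟩ := Submodule.Quotient.mk_surjective _ w
              rw [hd', mk_eq_zero_iff'] at hw
              obtain ⟨v, hv⟩ := hw
              have hdv : d (k + 2) v = 0 := by
                apply (hr (k + 3))
                show r • d (k + 2) v = r • 0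
                rw [← map_smul, ← hv, hdd, smul_zero]
              obtain ⟨n', x, hx⟩ := hkill s (List.mem_cons_of_mem _ hs) (k + 1)
                (by simpa using hk) v hdv
              obtain ⟨m, x', hx'⟩ := hkill s (List.mem_cons_of_mem _ hs) k
                (by simp; omega) (s ^ n' • w - r • x) (by
                  rw [map_sub, map_smul, map_smul, hv, hx, smul_smul, smul_smul, mul_comm,
                    sub_self])
              refine ⟨m + n', Submodule.Quotient.mk x', ?_⟩
              rw [hd', hx', smul_sub, Submodule.Quotient.mk_sub, smul_smul, ← pow_add]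
              rw [← Submodule.Quotient.mk_smul]
              have : (Submodule.Quotient.mk (s ^ m • r • x) : QuotSMulTop r (C (k + 1))) = 0 := by
                rw [mk_eq_zero_iff']
                exact ⟨s ^ m • x, by rw [smul_smul, smul_smul, mul_comm]⟩
              rw [this, sub_zero]) j hlen.symm (Submodule.Quotient.mk y) (by
              intro s hs
              obtain ⟨N, ys, hys⟩ := hz s (List.mem_cons_of_mem _ hs)
              obtain ⟨m, x', hx'⟩ := hkill s (List.mem_cons_of_mem _ hs) j
                (by simp [hlen]) (s ^ N • y - (r * r ^ n) • ys) (by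
                  rw [map_sub, map_smul, map_smul, hy2, hys, smul_smul, smul_smul, smul_smul,
                    sub_eq_zero]
                  congr 1
                  ring)
              refine ⟨m + N, Submodule.Quotient.mk x', ?_⟩
              rw [hd', hx', smul_sub, Submodule.Quotient.mk_sub, smul_smul, ← pow_add]
              rw [← Submodule.Quotient.mk_smul]
              have : (Submodule.Quotient.mk (s ^ m • (r * r ^ n) • ys) :
                  QuotSMulTop r (C (j + 1))) = 0 := by
                rw [mk_eq_zero_iff']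
                exact ⟨s ^ m • r ^ n • ys, by
                  rw [smul_smul, smul_smul, smul_smul]
                  congr 1
                  ring⟩
              rw [this, sub_zero])
          obtain ⟨y2, rfl⟩ := Submodule.Quotient.mk_surjective _ y2
          rw [hd', ← sub_eq_zero, ← Submodule.Quotient.mk_sub, mk_eq_zero_iff'] at hy2'
          obtain ⟨y3, hy3⟩ := hy2'
          refine ⟨- y3, ?_⟩
          apply hr (j + 2)
          show r • d (j + 1) (-y3) = r • (r ^ n • z)
          rw [← hy2, map_neg, smul_neg, ← map_smul, ← hy3, map_sub, hdd, zero_sub, neg_neg]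
    exact step n ⟨y, hy⟩

/-- Passing to the quotient by the first element: the cohomology of the quotient complex is
still torsion in the spots before the last one, and images of torsion elements are torsion. -/
theorem quot_kill {r : R} (rs : List R) (C : ℕ → Type v) [∀ i, AddCommGroup (C i)]
    [∀ i, Module R (C i)] (d : ∀ i, C i →ₗ[R] C (i + 1))
    (hkill : ∀ s ∈ rs, ∀ j, j + 1 < rs.length → ∀ z, d (j + 1) z = 0 →
      ∃ n : ℕ, ∃ y, d j y = s ^ n • z)
    (i : ℕ) (hi : i + 1 = rs.length)
    (hr2 : ∀ i, IsSMulRegular (C i) r)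
    (hdd : ∀ i x, d (i + 1) (d i x) = 0)
    (htf : ∀ w : C (i + 1), (∃ y, d i y = r • w) → ∀ s ∈ rs, ∃ n : ℕ, ∃ y, d i y = s ^ n • w)
    (s : R) (hs : s ∈ rs) (k : ℕ) (hk : k + 1 < rs.length) (w : C (k + 1))
    (hw : ∃ v, d (k + 1) w = r • v) :
    ∃ n : ℕ, ∃ y u, d k y = s ^ n • w + r • u := by
  obtain ⟨v, hv⟩ := hw
  have key : ∃ n' : ℕ, ∃ x, d (k + 1) x = s ^ n' • v := by
    by_cases h : k + 2 < rs.length
    · refine hkill s hs (k + 1) h v ?_
      apply (hr2 (k + 3))
      show r • d (k + 2) v = r • 0
      rw [← map_smul, ← hv, hdd, smul_zero]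
    · have hik : i = k + 1 := by omega
      subst hik
      exact htf v ⟨w, hv⟩ s hs
  obtain ⟨n', x, hx⟩ := key
  obtain ⟨m, x', hx'⟩ := hkill s hs k hk (s ^ n' • w - r • x) (by
    rw [map_sub, map_smul, map_smul, hv, hx, smul_smul, smul_smul, mul_comm, sub_self])
  refine ⟨m + n', x', - (s ^ m • x), ?_⟩
  rw [hx', smul_sub, smul_smul, ← pow_add, smul_neg, sub_eq_add_neg, smul_smul, smul_smul,
    mul_comm r]

/-- Division in the cokernel: `0 → C 1 → ... → C (i+1)`, `r :: rs` weakly regular on all `C j`
with `rs.length = i + 1`, cohomology at `C 1, ..., C i` torsion, the cokernel of the last map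
`r`-torsion free up to `rs`-torsion. If `z` is locally (at every `s ∈ rs`) divisible by `r ^ N`
modulo the image, then it is divisible by `r ^ N` modulo the image. -/
theorem div_coker (r : R) (rs : List R) (C : ℕ → Type v) [∀ i, AddCommGroup (C i)]
    [∀ i, Module R (C i)] (d : ∀ i, C i →ₗ[R] C (i + 1)) (hdd : ∀ i x, d (i + 1) (d i x) = 0)
    (h0 : Subsingleton (C 0)) (hreg : ∀ i, IsWeaklyRegular (C i) (r :: rs))
    (hkill : ∀ s ∈ rs, ∀ j, j + 1 < rs.length → ∀ z, d (j + 1) z = 0 →
      ∃ n : ℕ, ∃ y, d j y = s ^ n • z)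
    (i : ℕ) (hi : i + 1 = rs.length)
    (htf : ∀ w : C (i + 1), (∃ y, d i y = r • w) → ∀ s ∈ rs, ∃ n : ℕ, ∃ y, d i y = s ^ n • w)
    (htf' : ∀ w : C (i + 1), (∃ y, d i y = r • w) → ∃ y, d i y = w)
    (N : ℕ) (z : C (i + 1)) (hz : ∀ s ∈ rs, ∃ n : ℕ, ∃ zs y, d i y = s ^ n • z - r ^ N • zs) :
    ∃ w y, d i y = z - r ^ N • w := by
  have hr : ∀ i, IsSMulRegular (C i) r := fun i => by
    have := hreg i
    rw [isWeaklyRegular_cons_iff] at this
    exact this.1
  have htfN : ∀ (N : ℕ) (w : C (i + 1)), (∃ y, d i y = r ^ N • w) → ∃ y, d i y = w := by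
    intro N
    induction N with
    | zero => intro w hw; simpa using hw
    | succ N ihN =>
      intro w hw
      apply ihN
      apply htf'
      obtain ⟨y, hy⟩ := hw
      exact ⟨y, by rw [hy, smul_smul, pow_succ, mul_comm]⟩
  -- divisibility by `r` once
  have one : ∀ w : C (i + 1), (∀ s ∈ rs, ∃ n : ℕ, ∃ ws y, d i y = s ^ n • w - r • ws) →
      ∃ w' y, d i y = w - r • w' := by
    intro w hw
    have hmk0 := fun i (x : C i) => mk_eq_zero_iff' r x
    let d' : ∀ i, QuotSMulTop r (C i) →ₗ[R] QuotSMulTop r (C (i + 1)) :=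
      fun i => QuotSMulTop.map r (d i)
    have hd' : ∀ i (x : C i), d' i (Submodule.Quotient.mk x) = Submodule.Quotient.mk (d i x) := by
      intro i x
      exact QuotSMulTop.map_apply_mk r (d i) x
    obtain ⟨y, hy⟩ := torsionFree_coker rs (fun i => QuotSMulTop r (C i)) d' (by
        intro i x
        obtain ⟨x, rfl⟩ := Submodule.Quotient.mk_surjective _ x
        rw [hd', hd', hdd]
        rfl) (by
        constructor
        intro a b
        obtain ⟨a, rfl⟩ := Submodule.Quotient.mk_surjective _ a
        obtain ⟨b, rfl⟩ := Submodule.Quotient.mk_surjective _ b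
        rw [Subsingleton.elim a b]) (by
        intro i
        have := hreg i
        rw [isWeaklyRegular_cons_iff] at this
        exact this.2) (by
        intro s hs k hk w hw
        obtain ⟨w, rfl⟩ := Submodule.Quotient.mk_surjective _ w
        rw [hd', hmk0] at hw
        obtain ⟨n, y, u, h⟩ := quot_kill rs C d hkill i hi hr hdd htf s hs k hk w hw
        refine ⟨n, Submodule.Quotient.mk y, ?_⟩
        rw [hd', h, Submodule.Quotient.mk_add, (hmk0 _ (r • u)).2 ⟨u, rfl⟩, add_zero]
        rfl) i hi (Submodule.Quotient.mk w) (by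
        intro s hs
        obtain ⟨n, ws, y, h⟩ := hw s hs
        refine ⟨n, Submodule.Quotient.mk y, ?_⟩
        rw [hd', h, Submodule.Quotient.mk_sub, (hmk0 _ (r • ws)).2 ⟨ws, rfl⟩, sub_zero]
        rfl)
    obtain ⟨y, rfl⟩ := Submodule.Quotient.mk_surjective _ y
    rw [hd', ← sub_eq_zero, ← Submodule.Quotient.mk_sub, hmk0] at hy
    obtain ⟨u, hu⟩ := hy
    exact ⟨-u, y, by rw [smul_neg, ← hu]; abel⟩
  induction N with
  | zero => exact ⟨z, 0, by simp⟩
  | succ N ihN =>
    obtain ⟨w, y, hy⟩ := ihN (by
      intro s hs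
      obtain ⟨n, zs, y, h⟩ := hz s hs
      exact ⟨n, r • zs, y, by rw [h, smul_smul, pow_succ]⟩)
    obtain ⟨w', y', hy'⟩ := one w (by
      intro s hs
      obtain ⟨n, zs, y1, h⟩ := hz s hs
      obtain ⟨y2, h2⟩ := htfN N (s ^ n • w - r • zs) ⟨y1 - s ^ n • y, by
        rw [map_sub, map_smul, h, hy, smul_sub, smul_sub, smul_smul, smul_smul, smul_smul,
          pow_succ, mul_comm (s ^ n) (r ^ N)]
        abel⟩
      exact ⟨n, zs, y2, h2⟩)
    refine ⟨w', y + r ^ N • y', ?_⟩
    rw [map_add, map_smul, hy, hy', smul_sub, smul_smul, pow_succ]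
    abel

end LicciX
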